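import Pool.Agent.Lib.MP_d439b2_co.X3.H3S.Final
import Pool.Agent.Lib.MP_d439b2_co.Rep.RowX3
import Pool.Agent.Lib.MP_d439b2_co.F9.BaseP

/-!
# MP_d439b2_co, X3/H3S: the thick spider for `K3:0,01,12` in the form `Kill` (helper29)
-/

set_option autoImplicit false

namespace Pool.Agent.MPd439b2.H3S

open Pool.Agent.MPd439b2 Pool.Agent.MPd439b2.Rep

theorem tsp_of_tp {V : Type} {G : SimpleGraph V} {n : ℕ} {a b : ℕ → V}
    (h : TP G n true false true a b) : TSp G n a b where
  kk i hi j hj hij := (h.aa i hi j hj hij).2 rfl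
  ss i hi j hj := by
    by_cases hij : i = j
    · rw [hij]
      exact G.loopless.irrefl _
    · intro h'
      exact absurd ((h.bb i hi j hj hij).1 h') (by decide)
  ks i hi j hj := by
    rw [h.ab i hi j hj]
    simp

/-- **no large thick spiders** in the linked graphs without `K3:0,01,12` and `J4` -/
theorem killThick : Kill (F9.KF 3 3 ![{0}, {0, 1}, {1, 2}]) J4 true false true := by
  rw [F9.kf2]
  intro β
  obtain ⟨c₁, hc⟩ := thickF 4
  obtain ⟨n, hn⟩ := hc β
  exact ⟨c₁, n, fun V _ G hF hL a b hab => hn c₁ le_rfl V G hF hL a b (tsp_of_tp hab)⟩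

end Pool.Agent.MPd439b2.H3S
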