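import Pool.Agent.Lib.MP_d439b2_co.X3.H3S.Spec

/-!
# MP_d439b2_co, X3/H3S, Cu: the cut of rank at most `|W| + 2`
-/

set_option autoImplicit false

namespace Pool.Agent.MPd439b2.H3S

open Pool.Agent.MPd439b2
open Pool.Agent.MPd439b2.Rep

namespace hCuAux

variable {V : Type} {G : SimpleGraph V} {n : ℕ} {k s : ℕ → V}

/-- a vertex which misses all `s l`, `l ≠ j`, is neither in `U` nor in a set `V l` -/
theorem notT (hn : 4 ≤ n) {b : V} (j : ℕ) (h : ∀ l < n, l ≠ j → ¬ G.Adj b (s l)) :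
    ¬ (b ∈ UT G n s ∨ ∃ i < n, b ∈ VT G n s i) := by
  have pick : ∀ i : ℕ, ∃ l < n, l ≠ j ∧ l ≠ i := by
    intro i
    by_cases h0 : 0 ≠ j ∧ 0 ≠ i
    · exact ⟨0, by omega, h0⟩
    · by_cases h1 : 1 ≠ j ∧ 1 ≠ i
      · exact ⟨1, by omega, h1⟩
      · exact ⟨2, by omega, by omega, by omega⟩
  rintro (hU | ⟨i, _, hV⟩)
  · obtain ⟨l, hl, hlj, _⟩ := pick j
    exact h l hl hlj (hU l hl)
  · obtain ⟨l, hl, hlj, hli⟩ := pick i
    exact h l hl hlj ((hV l hl).2 hli)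

end hCuAux

open hCuAux in
/-- **Cu.** The cut. -/
theorem hCu : S_Cu := by
  intro V _ G n k s hn hT1 hT2 I W hI hW
  obtain ⟨X, hX⟩ : ∃ X : Set V, X = {x | ∃ i ∈ I, x ∈ VT G n s i ∨ x ∈ PT G n k s i} := ⟨_, rfl⟩
  obtain ⟨VI, hVI⟩ : ∃ X : Set V, X = {x | ∃ i ∈ I, x ∈ VT G n s i} := ⟨_, rfl⟩
  obtain ⟨PI, hPI⟩ : ∃ X : Set V, X = {x | ∃ i ∈ I, x ∈ PT G n k s i} := ⟨_, rfl⟩
  rw [← hX]
  have hXV : ∀ b ∈ Xᶜ, ∀ i ∈ I, b ∉ VT G n s i := by
    intro b hb i hi h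
    apply hb
    rw [hX]
    exact ⟨i, hi, Or.inl h⟩
  have hXP : ∀ b ∈ Xᶜ, ∀ i ∈ I, b ∉ PT G n k s i := by
    intro b hb i hi h
    apply hb
    rw [hX]
    exact ⟨i, hi, Or.inr h⟩
  have hsub : X ⊆ VI ∪ PI := by
    rw [hX, hVI, hPI]
    rintro x ⟨i, hi, h | h⟩
    · exact Or.inl ⟨i, hi, h⟩
    · exact Or.inr ⟨i, hi, h⟩
  have hP : LK.rk G PI Xᶜ ≤ 1 := by
    refine rk_one G {b | b ∈ UT G n s ∨ ∃ i < n, b ∈ VT G n s i} ?_
    rw [hPI]
    rintro a ⟨i, hi, ha⟩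
    left
    intro b hb
    have hin := hI i hi
    rcases hT1 b with h | ⟨j, hj, h⟩ | ⟨j, hj, h⟩ | h | h
    · exact iff_of_true ((hT2 i hin a b).2.2.1 ha h) (Or.inl h)
    · have hij : i ≠ j := by
        rintro rfl
        exact hXV b hb i hi h
      exact iff_of_true ((hT2 i hin a b).2.1 j hj hij ha h) (Or.inr ⟨j, hj, h⟩)
    · have hij : i ≠ j := by
        rintro rfl
        exact hXP b hb i hi h
      exact iff_of_false ((hT2 i hin a b).1 j hj hij ha h) (notT hn j h.2)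
    · exact iff_of_false ((hT2 i hin a b).2.2.2.1 ha h) (notT hn 0 fun l hl _ => h.2 l hl)
    · exact iff_of_false ((hT2 i hin a b).2.2.2.2.1 ha h) (notT hn 0 fun l hl _ => h.2 l hl)
  have hV : LK.rk G VI (Xᶜ \ W) ≤ 1 := by
    refine rk_one G {b | b ∉ ET G n k s} ?_
    rw [hVI]
    rintro a ⟨i, hi, ha⟩
    left
    intro b hb
    have hin := hI i hi
    by_cases hE : b ∈ ET G n k s
    · exact iff_of_false ((hT2 i hin a b).2.2.2.2.2.2 ha hE) (fun h => h hE)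
    · refine iff_of_true ?_ hE
      rcases hT1 b with h | ⟨j, hj, h⟩ | ⟨j, hj, h⟩ | h | h
      · exact hW i hi a ha b (Or.inl h) hb.2
      · have hij : j ≠ i := by
          rintro rfl
          exact hXV b hb.1 j hi h
        exact hW i hi a ha b (Or.inr ⟨j, hj, hij, h⟩) hb.2
      · have hij : j ≠ i := by
          rintro rfl
          exact hXP b hb.1 j hi h
        exact ((hT2 j hj b a).2.1 i hin hij h ha).symm
      · exact (hT2 i hin a b).2.2.2.2.2.1 ha h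
      · exact absurd h hE
  have hV2 : LK.rk G VI Xᶜ ≤ 1 + W.ncard := by
    have h1 : LK.rk G VI Xᶜ ≤ LK.rk G VI ((Xᶜ \ W) ∪ W) :=
      rk_mono G (Set.Subset.refl _) (fun x hx => by
        by_cases h : x ∈ W
        · exact Or.inr h
        · exact Or.inl ⟨hx, h⟩)
    have h2 := rk_union_right G VI (Xᶜ \ W) W
    have h3 := rk_card_right G VI W
    omega
  have h1 : LK.cr G X ≤ LK.rk G (VI ∪ PI) Xᶜ := by
    unfold LK.cr
    exact rk_mono G hsub (Set.Subset.refl _)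
  have h2 := rk_union G VI PI Xᶜ
  omega

end Pool.Agent.MPd439b2.H3S
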