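import Pool.Agent.Lib.MP_d439b2_co.X3.H3S.Spec

/-!
# MP_d439b2_co, X3/H3S, J1: a model of `J_t`
-/

set_option autoImplicit false

namespace Pool.Agent.MPd439b2.H3S

open Pool.Agent.MPd439b2
open Pool.Agent.MPd439b2.Rep

namespace hJ1Aux

/-- the leaves of the spider -/
abbrev Lf : Type := Σ i : Fin 3, Fin ((![0, 1, 1] : Fin 3 → ℕ) i)

/-- the first leaf -/
def l1 : Lf := ⟨1, ⟨0, by decide⟩⟩

/-- the second leaf -/
def l2 : Lf := ⟨2, ⟨0, by decide⟩⟩

theorem lf : ∀ y : Lf, y = l1 ∨ y = l2 := by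
  decide

theorem l12 : l1 ≠ l2 := by
  decide

/-- the vertices of `J_t` -/
theorem cas {t : ℕ} (P : Option Lf ⊕ (Fin t × Bool) → Prop) (h0 : P (Sum.inl none))
    (h1 : P (Sum.inl (some l1))) (h2 : P (Sum.inl (some l2)))
    (h3 : ∀ q, P (Sum.inr (q, false))) (h4 : ∀ q, P (Sum.inr (q, true))) : ∀ u, P u := by
  rintro ((_ | y) | ⟨q, _ | _⟩)
  · exact h0
  · rcases lf y with h | h
    · rw [h]
      exact h1
    · rw [h]
      exact h2
  · exact h3 q
  · exact h4 q

theorem spid01 : (F9.Spid ![0, 1, 1]).Adj none (some l1) := rfl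

theorem spid02 : (F9.Spid ![0, 1, 1]).Adj none (some l2) := rfl

theorem spid12 : ¬ (F9.Spid ![0, 1, 1]).Adj (some l1) (some l2) := by
  intro h
  have h1 : (1 : Fin 3) = 2 := h.1
  exact absurd h1 (by decide)

/-- the branch sets -/
def Br {V : Type} (v s w : ℕ → V) {t : ℕ} : Option Lf ⊕ (Fin t × Bool) → Set V
  | Sum.inl none => {s 0}
  | Sum.inl (some y) => if y = l1 then {v 0} else {s 1}
  | Sum.inr (q, false) => {v (q.val + 2)}
  | Sum.inr (q, true) => {s (q.val + 2), w (q.val + 2)}

theorem br0 {V : Type} (v s w : ℕ → V) {t : ℕ} : Br v s w (t := t) (Sum.inl none) = {s 0} := rfl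

theorem br1 {V : Type} (v s w : ℕ → V) {t : ℕ} :
    Br v s w (t := t) (Sum.inl (some l1)) = {v 0} := by
  simp [Br]

theorem br2 {V : Type} (v s w : ℕ → V) {t : ℕ} :
    Br v s w (t := t) (Sum.inl (some l2)) = {s 1} := by
  simp [Br, Ne.symm l12]

theorem brf {V : Type} (v s w : ℕ → V) {t : ℕ} (q : Fin t) :
    Br v s w (Sum.inr (q, false)) = {v (q.val + 2)} := rfl

theorem brt {V : Type} (v s w : ℕ → V) {t : ℕ} (q : Fin t) :
    Br v s w (Sum.inr (q, true)) = {s (q.val + 2), w (q.val + 2)} := rfl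

end hJ1Aux

open hJ1Aux in
theorem hJ1 : S_J1 := by
  intro t V G v s w vv ss vs ws vw winj
  have vne : ∀ i < t + 2, ∀ j < t + 2, i ≠ j → v i ≠ v j := by
    intro i hi j hj hne h
    have := vv i hi j hj hne
    rw [h] at this
    exact G.loopless.irrefl _ this
  have sne : ∀ i < t + 2, ∀ j < t + 2, i ≠ j → s i ≠ s j := by
    intro i hi j hj hne h
    have h1 := (vs i hi j hj).2 hne
    rw [← h] at h1
    exact (vs i hi i hi).1 h1 rfl
  have wne : ∀ i < t + 2, ∀ j < t + 2, i ≠ j → w i ≠ w j := fun i hi j hj hne h => hne (winj i hi j hj h)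
  have ws' : ∀ i < t + 2, ∀ j < t + 2, w i ≠ s j := by
    intro i hi j hj h
    have h1 := ws i hi j hj
    rw [h] at h1
    exact G.loopless.irrefl _ h1
  have wv' : ∀ i < t + 2, ∀ j < t + 2, w i ≠ v j := by
    intro i hi j hj h
    have h1 := ws i hi j hj
    rw [h] at h1
    exact (vs j hj j hj).1 h1 rfl
  have vs' : ∀ i < t + 2, ∀ j < t + 2, v i ≠ s j := by
    intro i hi j hj h
    obtain ⟨l, hl, hil⟩ : ∃ l < t + 2, i ≠ l := by
      by_cases h0 : i = 0
      · exact ⟨1, by omega, by omega⟩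
      · exact ⟨0, by omega, h0⟩
    have h1 := (vs i hi l hl).2 hil
    rw [h] at h1
    exact ss j hj l hl h1
  -- the pair condition
  let P : Option Lf ⊕ (Fin t × Bool) → Option Lf ⊕ (Fin t × Bool) → Prop := fun u u' =>
    u ≠ u' → Disjoint (Br v s w u) (Br v s w u') ∧
      ((A0.JP t).Adj u u' ↔ Tch G (Br v s w u) (Br v s w u'))
  have sy : ∀ u u', P u u' → P u' u := by
    intro u u' h hne
    obtain ⟨h1, h2⟩ := h hne.symm
    refine ⟨h1.symm, ?_⟩
    rw [SimpleGraph.adj_comm, h2]
    constructor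
    · rintro ⟨a, ha, b, hb, hab⟩
      exact ⟨b, hb, a, ha, hab.symm⟩
    · rintro ⟨a, ha, b, hb, hab⟩
      exact ⟨b, hb, a, ha, hab.symm⟩
  have nn : ∀ u, P u u := fun u h => absurd rfl h
  have g01 : P (Sum.inl none) (Sum.inl (some l1)) := by
    intro _
    rw [br0, br1]
    refine ⟨Set.disjoint_singleton.2 (vs' 0 (by omega) 0 (by omega)).symm,
      iff_of_false (fun h => h.2 spid01) ?_⟩
    rintro ⟨a, rfl, b, rfl, hab⟩
    exact (vs 0 (by omega) 0 (by omega)).1 hab.symm rfl
  have g02 : P (Sum.inl none) (Sum.inl (some l2)) := by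
    intro _
    rw [br0, br2]
    refine ⟨Set.disjoint_singleton.2 (sne 0 (by omega) 1 (by omega) (by omega)),
      iff_of_false (fun h => h.2 spid02) ?_⟩
    rintro ⟨a, rfl, b, rfl, hab⟩
    exact ss 0 (by omega) 1 (by omega) hab
  have g12 : P (Sum.inl (some l1)) (Sum.inl (some l2)) := by
    intro hne
    rw [br1, br2]
    refine ⟨Set.disjoint_singleton.2 (vs' 0 (by omega) 1 (by omega)),
      iff_of_true ⟨fun h => hne (congrArg Sum.inl h), spid12⟩ ?_⟩
    exact ⟨_, rfl, _, rfl, (vs 0 (by omega) 1 (by omega)).2 (by omega)⟩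
  have g0f : ∀ q, P (Sum.inl none) (Sum.inr (q, false)) := by
    intro q _
    have hq := q.2
    rw [br0, brf]
    refine ⟨Set.disjoint_singleton.2 (vs' _ (by omega) 0 (by omega)).symm, iff_of_true trivial ?_⟩
    exact ⟨_, rfl, _, rfl, ((vs (q.val + 2) (by omega) 0 (by omega)).2 (by omega)).symm⟩
  have g1f : ∀ q, P (Sum.inl (some l1)) (Sum.inr (q, false)) := by
    intro q _
    have hq := q.2
    rw [br1, brf]
    refine ⟨Set.disjoint_singleton.2 (vne 0 (by omega) _ (by omega) (by omega)),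
      iff_of_true trivial ?_⟩
    exact ⟨_, rfl, _, rfl, vv 0 (by omega) (q.val + 2) (by omega) (by omega)⟩
  have g2f : ∀ q, P (Sum.inl (some l2)) (Sum.inr (q, false)) := by
    intro q _
    have hq := q.2
    rw [br2, brf]
    refine ⟨Set.disjoint_singleton.2 (vs' _ (by omega) 1 (by omega)).symm, iff_of_true trivial ?_⟩
    exact ⟨_, rfl, _, rfl, ((vs (q.val + 2) (by omega) 1 (by omega)).2 (by omega)).symm⟩
  have g0t : ∀ q, P (Sum.inl none) (Sum.inr (q, true)) := by
    intro q _
    have hq := q.2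
    rw [br0, brt]
    refine ⟨?_, iff_of_true trivial ?_⟩
    · rw [Set.disjoint_singleton_left]
      rintro (h | h)
      · exact sne 0 (by omega) (q.val + 2) (by omega) (by omega) h
      · exact ws' (q.val + 2) (by omega) 0 (by omega) (Set.mem_singleton_iff.1 h).symm
    · exact ⟨_, rfl, _, Or.inr rfl, (ws (q.val + 2) (by omega) 0 (by omega)).symm⟩
  have g1t : ∀ q, P (Sum.inl (some l1)) (Sum.inr (q, true)) := by
    intro q _
    have hq := q.2
    rw [br1, brt]
    refine ⟨?_, iff_of_true trivial ?_⟩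
    · rw [Set.disjoint_singleton_left]
      rintro (h | h)
      · exact vs' 0 (by omega) (q.val + 2) (by omega) h
      · exact wv' (q.val + 2) (by omega) 0 (by omega) (Set.mem_singleton_iff.1 h).symm
    · exact ⟨_, rfl, _, Or.inl rfl, (vs 0 (by omega) (q.val + 2) (by omega)).2 (by omega)⟩
  have g2t : ∀ q, P (Sum.inl (some l2)) (Sum.inr (q, true)) := by
    intro q _
    have hq := q.2
    rw [br2, brt]
    refine ⟨?_, iff_of_true trivial ?_⟩
    · rw [Set.disjoint_singleton_left]
      rintro (h | h)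
      · exact sne 1 (by omega) (q.val + 2) (by omega) (by omega) h
      · exact ws' (q.val + 2) (by omega) 1 (by omega) (Set.mem_singleton_iff.1 h).symm
    · exact ⟨_, rfl, _, Or.inr rfl, (ws (q.val + 2) (by omega) 1 (by omega)).symm⟩
  have gff : ∀ q q', P (Sum.inr (q, false)) (Sum.inr (q', false)) := by
    intro q q' hne
    have hq := q.2
    have hq' := q'.2
    have hqq : q.val ≠ q'.val := fun h => hne (by rw [Fin.ext h])
    rw [brf, brf]
    refine ⟨Set.disjoint_singleton.2 (vne _ (by omega) _ (by omega) (by omega)), ?_⟩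
    refine iff_of_true (show q ≠ q' from fun h => hqq (congrArg Fin.val h)) ?_
    exact ⟨_, rfl, _, rfl, vv (q.val + 2) (by omega) (q'.val + 2) (by omega) (by omega)⟩
  have gft : ∀ q q', P (Sum.inr (q, false)) (Sum.inr (q', true)) := by
    intro q q' _
    have hq := q.2
    have hq' := q'.2
    rw [brf, brt]
    refine ⟨?_, ?_⟩
    · rw [Set.disjoint_singleton_left]
      rintro (h | h)
      · exact vs' (q.val + 2) (by omega) (q'.val + 2) (by omega) h
      · exact wv' (q'.val + 2) (by omega) (q.val + 2) (by omega) (Set.mem_singleton_iff.1 h).symm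
    · constructor
      · intro h
        have h1 : q ≠ q' := h
        have hqq : q.val ≠ q'.val := fun h => h1 (Fin.ext h)
        exact ⟨_, rfl, _, Or.inl rfl, (vs (q.val + 2) (by omega) (q'.val + 2) (by omega)).2 (by omega)⟩
      · rintro ⟨a, rfl, b, hb, hab⟩
        show q ≠ q'
        rintro rfl
        rcases hb with rfl | hb
        · exact (vs (q.val + 2) (by omega) (q.val + 2) (by omega)).1 hab rfl
        · rw [Set.mem_singleton_iff.1 hb] at hab
          exact vw (q.val + 2) (by omega) hab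
  have gtt : ∀ q q', P (Sum.inr (q, true)) (Sum.inr (q', true)) := by
    intro q q' hne
    have hq := q.2
    have hq' := q'.2
    have hqq : q.val ≠ q'.val := fun h => hne (by rw [Fin.ext h])
    rw [brt, brt]
    refine ⟨?_, iff_of_true (show q ≠ q' from fun h => hqq (congrArg Fin.val h)) ?_⟩
    · rw [Set.disjoint_left]
      rintro x (rfl | hx) (h | h)
      · exact sne (q.val + 2) (by omega) (q'.val + 2) (by omega) (by omega) h
      · exact ws' (q'.val + 2) (by omega) (q.val + 2) (by omega) (Set.mem_singleton_iff.1 h).symm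
      · rw [Set.mem_singleton_iff.1 hx] at h
        exact ws' (q.val + 2) (by omega) (q'.val + 2) (by omega) h
      · rw [Set.mem_singleton_iff.1 hx] at h
        exact wne (q.val + 2) (by omega) (q'.val + 2) (by omega) (by omega) (Set.mem_singleton_iff.1 h)
    · exact ⟨_, Or.inr rfl, _, Or.inl rfl, ws (q.val + 2) (by omega) (q'.val + 2) (by omega)⟩
  have key : ∀ u u', P u u' := by
    refine cas _ (cas _ (nn _) g01 g02 g0f g0t) (cas _ (sy _ _ g01) (nn _) g12 g1f g1t)
      (cas _ (sy _ _ g02) (sy _ _ g12) (nn _) g2f g2t)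
      (fun q => cas _ (sy _ _ (g0f q)) (sy _ _ (g1f q)) (sy _ _ (g2f q)) (gff q) (gft q))
      (fun q => cas _ (sy _ _ (g0t q)) (sy _ _ (g1t q)) (sy _ _ (g2t q))
        (fun q' => sy _ _ (gft q' q)) (gtt q))
  refine ⟨Br v s w, fun _ => Set.subset_univ _, ?_, fun u u' hne => (key u u' hne).1,
    fun u u' hne => (key u u' hne).2⟩
  refine cas _ ?_ ?_ ?_ (fun q => ?_) (fun q => ?_)
  · rw [br0]; exact Conn.singleton G _
  · rw [br1]; exact Conn.singleton G _
  · rw [br2]; exact Conn.singleton G _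
  · rw [brf]; exact Conn.singleton G _
  · rw [brt]
    have hq := q.2
    exact Conn.pair (ws (q.val + 2) (by omega) (q.val + 2) (by omega)).symm

end Pool.Agent.MPd439b2.H3S
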