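import Pool.Agent.Lib.MP_d439b2_co.X3.H3S.Spec

/-!
# MP_d439b2_co, X3/H3S: a maximal rainbow matching covers the non-edges (helper18)
-/

set_option autoImplicit false

namespace Pool.Agent.MPd439b2.H3S

open Pool.Agent.MPd439b2
open Pool.Agent.MPd439b2.Rep

namespace hMxAux

/-- rainbow matchings -/
structure Rbm {V : Type} (G : SimpleGraph V) (n : ℕ) (s : ℕ → V) (r : ℕ) (ι : ℕ → ℕ) (v w : ℕ → V) :
    Prop where
  lt : ∀ i < r, ι i < n
  inj : ∀ i < r, ∀ j < r, ι i = ι j → i = j
  vv : ∀ i < r, v i ∈ VT G n s (ι i)
  ww : ∀ i < r, w i ∈ UT G n s ∨ ∃ j < n, j ≠ ι i ∧ w i ∈ VT G n s j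
  wi : ∀ i < r, ∀ j < r, w i = w j → i = j
  na : ∀ i < r, ¬ G.Adj (v i) (w i)

theorem exists_step (P : ℕ → Prop) (M : ℕ) (h0 : P 0) (hM : ¬ P M) : ∃ r < M, P r ∧ ¬ P (r + 1) := by
  by_contra hno
  push Not at hno
  have key : ∀ r, r ≤ M → P r := by
    intro r
    induction r with
    | zero => exact fun _ => h0
    | succ r ih => exact fun h => hno r (by omega) (ih (by omega))
  exact hM (key M le_rfl)

end hMxAux

open hMxAux

theorem hMx : S_Mx := by
  classical
  intro t M hR V _ G n k s hJ hS
  obtain ⟨r, hrM, ⟨ι, v, w, hr⟩, hno⟩ := exists_step (fun r => ∃ ι v w, Rbm G n s r ι v w) M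
    ⟨fun _ => 0, k, k, ⟨fun i hi => absurd hi (Nat.not_lt_zero _),
      fun i hi => absurd hi (Nat.not_lt_zero _), fun i hi => absurd hi (Nat.not_lt_zero _),
      fun i hi => absurd hi (Nat.not_lt_zero _), fun i hi => absurd hi (Nat.not_lt_zero _),
      fun i hi => absurd hi (Nat.not_lt_zero _)⟩⟩
    (by
      rintro ⟨ι, v, w, h⟩
      exact hR V G n k s hJ hS ι v w h.lt h.inj h.vv h.ww h.wi h.na)
  refine ⟨(Finset.range r).image ι, (((Finset.range r).image w : Finset V) : Set V), ?_, ?_, ?_⟩
  · have h := Finset.card_image_le (s := Finset.range r) (f := ι)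
    rw [Finset.card_range] at h
    omega
  · rw [Set.ncard_coe_finset]
    have h := Finset.card_image_le (s := Finset.range r) (f := w)
    rw [Finset.card_range] at h
    omega
  · intro i hi hiB v0 hv0 w0 hw0 hwW
    by_contra hadj
    have hιi : ∀ j < r, ι j ≠ i := fun j hj he =>
      hiB (Finset.mem_image.2 ⟨j, Finset.mem_range.2 hj, he⟩)
    have hwi : ∀ j < r, w j ≠ w0 := fun j hj he =>
      hwW (Finset.mem_coe.2 (Finset.mem_image.2 ⟨j, Finset.mem_range.2 hj, he⟩))
    have e1 : ∀ j < r, Function.update ι r i j = ι j := fun j hj =>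
      Function.update_of_ne (Nat.ne_of_lt hj) _ _
    have e2 : ∀ j < r, Function.update v r v0 j = v j := fun j hj =>
      Function.update_of_ne (Nat.ne_of_lt hj) _ _
    have e3 : ∀ j < r, Function.update w r w0 j = w j := fun j hj =>
      Function.update_of_ne (Nat.ne_of_lt hj) _ _
    have f1 : Function.update ι r i r = i := Function.update_self _ _ _
    have f2 : Function.update v r v0 r = v0 := Function.update_self _ _ _
    have f3 : Function.update w r w0 r = w0 := Function.update_self _ _ _
    have hc : ∀ j, j < r + 1 → j < r ∨ j = r := fun j hj => by omega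
    refine hno ⟨Function.update ι r i, Function.update v r v0, Function.update w r w0,
      ⟨fun j hj => ?_, fun j hj l hl he => ?_, fun j hj => ?_, fun j hj => ?_,
        fun j hj l hl he => ?_, fun j hj => ?_⟩⟩
    · rcases hc j hj with h | rfl
      · rw [e1 j h]
        exact hr.lt j h
      · rw [f1]
        exact hi
    · rcases hc j hj with h | h <;> rcases hc l hl with h' | h'
      · rw [e1 j h, e1 l h'] at he
        exact hr.inj j h l h' he
      · subst h'
        rw [e1 j h, f1] at he
        exact absurd he (hιi j h)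
      · subst h
        rw [f1, e1 l h'] at he
        exact absurd he.symm (hιi l h')
      · rw [h, h']
    · rcases hc j hj with h | rfl
      · rw [e1 j h, e2 j h]
        exact hr.vv j h
      · rw [f1, f2]
        exact hv0
    · rcases hc j hj with h | rfl
      · rw [e1 j h, e3 j h]
        exact hr.ww j h
      · rw [f1, f3]
        exact hw0
    · rcases hc j hj with h | h <;> rcases hc l hl with h' | h'
      · rw [e3 j h, e3 l h'] at he
        exact hr.wi j h l h' he
      · subst h'
        rw [e3 j h, f3] at he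
        exact absurd he (hwi j h)
      · subst h
        rw [f3, e3 l h'] at he
        exact absurd he.symm (hwi l h')
      · rw [h, h']
    · rcases hc j hj with h | rfl
      · rw [e2 j h, e3 j h]
        exact hr.na j h
      · rw [f2, f3]
        exact hadj

end Pool.Agent.MPd439b2.H3S
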