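import Pool.Agent.Lib.MP_d439b2_co.X3.H3S.Spec

/-!
# MP_d439b2_co, X3/H3S: rainbow matchings of non-edges are bounded
-/

set_option autoImplicit false

namespace Pool.Agent.MPd439b2.H3S

open Pool.Agent.MPd439b2
open Pool.Agent.MPd439b2.Rep

theorem hRb : S_Rb := by
  intro hR hPB hJ1 t
  classical
  obtain ⟨M, hM⟩ := hR (Bool × Bool × Bool) (2 * t + 3)
  refine ⟨M, ?_⟩
  intro V G n k s hJ hT ι v w hι hιi hv hw hwi hvw
  obtain ⟨σ, ⟨c1, c2, c3⟩, hσ, hσM, hc⟩ := hM fun a b =>
    (decide (G.Adj (v a) (v b)), decide (G.Adj (w a) (s (ι b))), decide (G.Adj (w b) (s (ι a))))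
  have hne : ∀ a < 2 * t + 3, ∀ b < 2 * t + 3, a ≠ b → ι (σ a) ≠ ι (σ b) := by
    intro a ha b hb hab h
    have h1 := hιi _ (hσM a ha) _ (hσM b hb) h
    rcases Nat.lt_or_gt_of_ne hab with h2 | h2
    · have := hσ a b h2 hb
      omega
    · have := hσ b a h2 ha
      omega
  have hn : ∀ a < 2 * t + 3, ι (σ a) < n := fun a ha => hι _ (hσM a ha)
  have d1 : ∀ a b, a < b → b < 2 * t + 3 → decide (G.Adj (v (σ a)) (v (σ b))) = c1 :=
    fun a b h1 h2 => congrArg Prod.fst (hc a b h1 h2)
  have d2 : ∀ a b, a < b → b < 2 * t + 3 → decide (G.Adj (w (σ a)) (s (ι (σ b)))) = c2 :=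
    fun a b h1 h2 => congrArg Prod.fst (congrArg Prod.snd (hc a b h1 h2))
  have d3 : ∀ a b, a < b → b < 2 * t + 3 → decide (G.Adj (w (σ b)) (s (ι (σ a)))) = c3 :=
    fun a b h1 h2 => congrArg Prod.snd (congrArg Prod.snd (hc a b h1 h2))
  have miss : ∀ i < M, ∀ a < n, ∀ b < n, a ≠ b → ¬ G.Adj (w i) (s a) → ¬ G.Adj (w i) (s b) →
      False := by
    intro i hi a ha b hb hab h1 h2
    rcases hw i hi with h | ⟨j, -, -, h⟩
    · exact h1 (h a ha)
    · have e1 : a = j := by
        by_contra h3
        exact h1 ((h a ha).2 h3)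
      have e2 : b = j := by
        by_contra h3
        exact h2 ((h b hb).2 h3)
      exact hab (e1.trans e2.symm)
  have e2 : c2 = true := by
    by_contra h
    rw [Bool.not_eq_true] at h
    have f1 := d2 0 1 (by omega) (by omega)
    have f2 := d2 0 2 (by omega) (by omega)
    rw [h, decide_eq_false_iff_not] at f1 f2
    exact miss (σ 0) (hσM 0 (by omega)) _ (hn 1 (by omega)) _ (hn 2 (by omega))
      (hne 1 (by omega) 2 (by omega) (by omega)) f1 f2
  have e3 : c3 = true := by
    by_contra h
    rw [Bool.not_eq_true] at h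
    have f1 := d3 0 2 (by omega) (by omega)
    have f2 := d3 1 2 (by omega) (by omega)
    rw [h, decide_eq_false_iff_not] at f1 f2
    exact miss (σ 2) (hσM 2 (by omega)) _ (hn 0 (by omega)) _ (hn 1 (by omega))
      (hne 0 (by omega) 1 (by omega) (by omega)) f1 f2
  have hws : ∀ a < 2 * t + 3, ∀ b < 2 * t + 3, G.Adj (w (σ a)) (s (ι (σ b))) := by
    intro a ha b hb
    rcases lt_trichotomy a b with h | h | h
    · have := d2 a b h hb
      rw [e2, decide_eq_true_iff] at this
      exact this
    · rw [← h]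
      rcases hw _ (hσM a ha) with h' | ⟨j, -, hj, h'⟩
      · exact h' _ (hn a ha)
      · exact (h' _ (hn a ha)).2 hj.symm
    · have := d3 b a h ha
      rw [e3, decide_eq_true_iff] at this
      exact this
  have hvs : ∀ a < 2 * t + 3, ∀ b < 2 * t + 3, (G.Adj (v (σ a)) (s (ι (σ b))) ↔ a ≠ b) := by
    intro a ha b hb
    rw [hv _ (hσM a ha) _ (hn b hb)]
    constructor
    · intro h1 h2
      exact h1 (by rw [h2])
    · intro h1
      exact hne b hb a ha (Ne.symm h1)
  have hss : ∀ a < 2 * t + 3, ∀ b < 2 * t + 3, ¬ G.Adj (s (ι (σ a))) (s (ι (σ b))) :=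
    fun a ha b hb => hT.ss _ (hn a ha) _ (hn b hb)
  cases hc1 : c1 with
  | false =>
    refine hJ (hPB t V G (fun a => v (σ a)) (fun a => s (ι (σ a))) ?_ hss hvs)
    intro a ha b hb
    rcases lt_trichotomy a b with h | h | h
    · have := d1 a b h hb
      rw [hc1, decide_eq_false_iff_not] at this
      exact this
    · rw [h]
      exact G.irrefl
    · have := d1 b a h ha
      rw [hc1, decide_eq_false_iff_not] at this
      exact fun h' => this h'.symm
  | true =>
    refine hJ (hJ1 t V G (fun a => v (σ a)) (fun a => s (ι (σ a))) (fun a => w (σ a)) ?_ ?_ ?_ ?_ ?_ ?_)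
    · intro a ha b hb hab
      rcases Nat.lt_or_gt_of_ne hab with h | h
      · have := d1 a b h (by omega)
        rw [hc1, decide_eq_true_iff] at this
        exact this
      · have := d1 b a h (by omega)
        rw [hc1, decide_eq_true_iff] at this
        exact this.symm
    · exact fun a ha b hb => hss a (by omega) b (by omega)
    · exact fun a ha b hb => hvs a (by omega) b (by omega)
    · exact fun a ha b hb => hws a (by omega) b (by omega)
    · exact fun a ha => hvw _ (hσM a (by omega))
    · intro a ha b hb h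
      have h1 := hwi _ (hσM a (by omega)) _ (hσM b (by omega)) h
      by_contra hab
      exact hne a (by omega) b (by omega) hab (by rw [h1])

end Pool.Agent.MPd439b2.H3S
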