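import Pool.Agent.Lib.MP_d439b2_co.X3.H3S.Spec

/-!
# MP_d439b2_co, X3/H3S, Re: restriction of a thick spider (helper91)
-/

set_option autoImplicit false

namespace Pool.Agent.MPd439b2.H3S

open Pool.Agent.MPd439b2
open Pool.Agent.MPd439b2.Rep

/-- **Re.** -/
theorem hRe : S_Re := by
  intro V G n k s h
  refine ⟨fun m σ hσ inj => ?_, ?_, ?_, ?_⟩
  · refine ⟨fun i hi j hj hij => ?_, fun i hi j hj => ?_, fun i hi j hj => ?_⟩
    · exact h.kk _ (hσ i hi) _ (hσ j hj) fun h1 => hij (inj i hi j hj h1)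
    · exact h.ss _ (hσ i hi) _ (hσ j hj)
    · refine (h.ks _ (hσ i hi) _ (hσ j hj)).trans ⟨fun h1 h2 => h1 (by rw [h2]), fun h1 h2 => ?_⟩
      exact h1 (inj i hi j hj h2)
  · intro i hi j hj hij
    exact (h.kk i hi j hj hij).ne
  · intro i hi j hj hij he
    have h1 := (h.ks i hi j hj).2 hij
    rw [← he] at h1
    exact (h.ks i hi i hi).1 h1 rfl
  · intro hn i hi j hj he
    obtain ⟨l, hl, hli, hlj⟩ : ∃ l < n, l ≠ i ∧ l ≠ j := by
      by_cases h0 : i ≠ 0 ∧ j ≠ 0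
      · exact ⟨0, by omega, h0.1.symm, h0.2.symm⟩
      · by_cases h1 : i ≠ 1 ∧ j ≠ 1
        · exact ⟨1, by omega, h1.1.symm, h1.2.symm⟩
        · exact ⟨2, by omega, by omega, by omega⟩
    have h1 := (h.ks i hi l hl).2 hli.symm
    rw [he] at h1
    exact h.ss j hj l hl h1

end Pool.Agent.MPd439b2.H3S
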