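import Pool.Agent.Lib.MP_d439b2_co.X3.H3S.Spec

/-!
# MP_d439b2_co, X3/H3S: the table of one vertex (`S_T1`)
-/

set_option autoImplicit false

namespace Pool.Agent.MPd439b2.H3S

open Pool.Agent.MPd439b2 Pool.Agent.MPd439b2.Rep

namespace hT1Aux

/-- four legs -/
def sg (a b c d : ℕ) : ℕ → ℕ := fun m => if m = 0 then a else if m = 1 then b else if m = 2 then c else d

theorem b1 : ∀ t < 256, (!(ok1 t) || t.testBit 4 || t.testBit 5 ||
    !(t.testBit 6 && t.testBit 7)) = true := by decide +kernel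

theorem b2 : ∀ t < 256, (!(ok1 t) || t.testBit 4 || t.testBit 5 || !(t.testBit 6) ||
    (!(t.testBit 2) && t.testBit 0 && t.testBit 1 && t.testBit 3)) = true := by decide +kernel

theorem b3 : ∀ t < 256, (!(ok1 t) || t.testBit 4 || t.testBit 5 || t.testBit 6 || t.testBit 7 ||
    t.testBit 0 || t.testBit 1 || (!(t.testBit 2) && !(t.testBit 3))) = true := by decide +kernel

theorem c1 {t : ℕ} (ht : t < 256) (h : ok1 t = true) (h4 : t.testBit 4 = false)
    (h5 : t.testBit 5 = false) : ¬ (t.testBit 6 = true ∧ t.testBit 7 = true) := by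
  have e := b1 t ht
  rw [h, h4, h5] at e
  rintro ⟨h6, h7⟩
  rw [h6, h7] at e
  exact absurd e (by decide)

theorem c2 {t : ℕ} (ht : t < 256) (h : ok1 t = true) (h4 : t.testBit 4 = false)
    (h5 : t.testBit 5 = false) (h6 : t.testBit 6 = true) :
    t.testBit 2 = false ∧ t.testBit 0 = true ∧ t.testBit 1 = true ∧ t.testBit 3 = true := by
  have e := b2 t ht
  rw [h, h4, h5, h6] at e
  revert e
  generalize t.testBit 2 = x2
  generalize t.testBit 0 = x0
  generalize t.testBit 1 = x1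
  generalize t.testBit 3 = x3
  revert x0 x1 x2 x3
  decide

theorem c3 {t : ℕ} (ht : t < 256) (h : ok1 t = true) (h4 : t.testBit 4 = false)
    (h5 : t.testBit 5 = false) (h6 : t.testBit 6 = false) (h7 : t.testBit 7 = false)
    (h0 : t.testBit 0 = false) (h1 : t.testBit 1 = false) :
    t.testBit 2 = false ∧ t.testBit 3 = false := by
  have e := b3 t ht
  rw [h, h4, h5, h6, h7, h0, h1] at e
  revert e
  generalize t.testBit 2 = x2
  generalize t.testBit 3 = x3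
  revert x2 x3
  decide

theorem fourth {n : ℕ} (hn : 4 ≤ n) (a b c : ℕ) : ∃ d < n, d ≠ a ∧ d ≠ b ∧ d ≠ c := by
  by_contra h
  push Not at h
  have h0 := h 0 (by omega)
  have h1 := h 1 (by omega)
  have h2 := h 2 (by omega)
  have h3 := h 3 (by omega)
  omega

theorem star (hT : S_Tab1) (hR : S_Re) {V : Type} {G : SimpleGraph V} {n : ℕ} {k s : ℕ → V}
    (hG : ¬ IMS H3 G Set.univ) (hk : TSp G n k s) {u : V} (hu : ∀ i < n, u ≠ k i)
    (hu' : ∀ i < n, u ≠ s i) {a b c d : ℕ} (ha : a < n) (hb : b < n) (hc : c < n) (hd : d < n)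
    (hab : a ≠ b) (hac : a ≠ c) (had : a ≠ d) (hbc : b ≠ c) (hbd : b ≠ d) (hcd : c ≠ d) :
    (¬ G.Adj u (s a) → ¬ G.Adj u (s b) → ¬ (G.Adj u (s c) ∧ G.Adj u (s d))) ∧
    (¬ G.Adj u (s a) → ¬ G.Adj u (s b) → G.Adj u (s c) →
      ¬ G.Adj u (k c) ∧ G.Adj u (k a) ∧ G.Adj u (k b) ∧ G.Adj u (k d)) ∧
    (¬ G.Adj u (s a) → ¬ G.Adj u (s b) → ¬ G.Adj u (s c) → ¬ G.Adj u (s d) →
      ¬ G.Adj u (k a) → ¬ G.Adj u (k b) → ¬ G.Adj u (k c) ∧ ¬ G.Adj u (k d)) := by
  have hs : ∀ i < 4, sg a b c d i < n := by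
    intro i _
    unfold sg
    split_ifs <;> assumption
  have hinj : ∀ i < 4, ∀ j < 4, sg a b c d i = sg a b c d j → i = j := by
    intro i hi j hj h
    unfold sg at h
    split_ifs at h <;> first | omega | exact absurd h (by assumption) |
      exact absurd h.symm (by assumption)
  obtain ⟨t, ht, ⟨h1, h2⟩, hok⟩ := hT V G (k ∘ sg a b c d) (s ∘ sg a b c d) hG
    ((hR V G n k s hk).1 4 (sg a b c d) hs hinj) u (fun i hi => hu _ (hs i hi))
    (fun i hi => hu' _ (hs i hi))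
  have k0 : G.Adj u (k a) ↔ t.testBit 0 = true := h1 0 (by omega)
  have k1 : G.Adj u (k b) ↔ t.testBit 1 = true := h1 1 (by omega)
  have k2 : G.Adj u (k c) ↔ t.testBit 2 = true := h1 2 (by omega)
  have k3 : G.Adj u (k d) ↔ t.testBit 3 = true := h1 3 (by omega)
  have s0 : G.Adj u (s a) ↔ t.testBit 4 = true := h2 0 (by omega)
  have s1 : G.Adj u (s b) ↔ t.testBit 5 = true := h2 1 (by omega)
  have s2 : G.Adj u (s c) ↔ t.testBit 6 = true := h2 2 (by omega)
  have s3 : G.Adj u (s d) ↔ t.testBit 7 = true := h2 3 (by omega)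
  rw [k0, k1, k2, k3, s0, s1, s2, s3]
  simp only [Bool.not_eq_true]
  exact ⟨fun e1 e2 => c1 ht hok e1 e2, fun e1 e2 e3 => c2 ht hok e1 e2 e3,
    fun e1 e2 e3 e4 e5 e6 => c3 ht hok e1 e2 e3 e4 e5 e6⟩

end hT1Aux

open hT1Aux

theorem hT1 : S_T1 := by
  intro hT hR V G n k s hG hk hn u
  by_cases hu : ∃ i < n, u = k i
  · obtain ⟨i, hi, rfl⟩ := hu
    refine Or.inr (Or.inl ⟨i, hi, fun j hj => ?_⟩)
    rw [hk.ks i hi j hj]
    exact ne_comm
  by_cases hu' : ∃ i < n, u = s i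
  · obtain ⟨i, hi, rfl⟩ := hu'
    refine Or.inr (Or.inr (Or.inl ⟨i, hi, fun j hj => ?_, fun j hj _ => hk.ss i hi j hj⟩))
    rw [G.adj_comm, hk.ks j hj i hi]
  have hu1 : ∀ i < n, u ≠ k i := fun i hi h => hu ⟨i, hi, h⟩
  have hu2 : ∀ i < n, u ≠ s i := fun i hi h => hu' ⟨i, hi, h⟩
  by_cases h0 : ∀ j < n, G.Adj u (s j)
  · exact Or.inl h0
  push Not at h0
  obtain ⟨a, ha, hSa⟩ := h0
  by_cases h1 : ∀ j < n, j ≠ a → G.Adj u (s j)
  · refine Or.inr (Or.inl ⟨a, ha, fun j hj => ⟨fun h => ?_, h1 j hj⟩⟩)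
    rintro rfl
    exact hSa h
  push Not at h1
  obtain ⟨b, hb, hba, hSb⟩ := h1
  by_cases h2 : ∃ j < n, G.Adj u (s j)
  · obtain ⟨j, hj, hSj⟩ := h2
    have hja : j ≠ a := by
      rintro rfl
      exact hSa hSj
    have hjb : j ≠ b := by
      rintro rfl
      exact hSb hSj
    have key : ∀ i < n, i ≠ a → i ≠ b → i ≠ j → ¬ G.Adj u (s i) ∧
        ¬ G.Adj u (k j) ∧ G.Adj u (k a) ∧ G.Adj u (k b) ∧ G.Adj u (k i) := by
      intro i hi hia hib hij
      have e1 := (star hT hR hG hk hu1 hu2 ha hb hi hj hba.symm hia.symm hja.symm hib.symm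
        hjb.symm hij).1 hSa hSb
      have e2 := (star hT hR hG hk hu1 hu2 ha hb hj hi hba.symm hja.symm hia.symm hjb.symm
        hib.symm hij.symm).2.1 hSa hSb hSj
      exact ⟨fun h => e1 ⟨h, hSj⟩, e2⟩
    obtain ⟨d, hd, hda, hdb, hdj⟩ := fourth hn a b j
    have kd := key d hd hda hdb hdj
    refine Or.inr (Or.inr (Or.inl ⟨j, hj, fun i hi => ⟨fun h => ?_, fun h => ?_⟩,
      fun i hi hij => ?_⟩))
    · rintro rfl
      exact kd.2.1 h
    · by_cases hia : i = a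
      · rw [hia]; exact kd.2.2.1
      by_cases hib : i = b
      · rw [hib]; exact kd.2.2.2.1
      exact (key i hi hia hib h).2.2.2.2
    · by_cases hia : i = a
      · rw [hia]; exact hSa
      by_cases hib : i = b
      · rw [hib]; exact hSb
      exact (key i hi hia hib hij).1
  push Not at h2
  by_cases h3 : ∃ i < n, ∃ j < n, i ≠ j ∧ ¬ G.Adj u (k i) ∧ ¬ G.Adj u (k j)
  · obtain ⟨i, hi, j, hj, hij, hKi, hKj⟩ := h3
    refine Or.inr (Or.inr (Or.inr (Or.inr ⟨fun l hl => ?_, h2⟩)))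
    by_cases hli : l = i
    · rw [hli]; exact hKi
    by_cases hlj : l = j
    · rw [hlj]; exact hKj
    obtain ⟨m, hm, hmi, hmj, hml⟩ := fourth hn i j l
    exact ((star hT hR hG hk hu1 hu2 hi hj hl hm hij (Ne.symm hli) hmi.symm (Ne.symm hlj)
      hmj.symm hml.symm).2.2 (h2 i hi) (h2 j hj) (h2 l hl) (h2 m hm) hKi hKj).1
  push Not at h3
  by_cases h4 : ∃ i < n, ¬ G.Adj u (k i)
  · obtain ⟨i, hi, hKi⟩ := h4
    refine Or.inr (Or.inr (Or.inl ⟨i, hi, fun j hj => ⟨fun h => ?_, fun h => ?_⟩,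
      fun j hj _ => h2 j hj⟩))
    · rintro rfl
      exact hKi h
    · exact h3 i hi j hj h.symm hKi
  · push Not at h4
    exact Or.inr (Or.inr (Or.inr (Or.inl ⟨h4, h2⟩)))

end Pool.Agent.MPd439b2.H3S
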