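import Pool.Agent.Lib.MP_d439b2_co.X3.H3S.Spec

/-!
# MP_d439b2_co, X3/H3S, T2: the table of two vertices (helper91)
-/

set_option autoImplicit false

namespace Pool.Agent.MPd439b2.H3S

open Pool.Agent.MPd439b2
open Pool.Agent.MPd439b2.Rep

namespace hT2Aux

variable {V : Type} {G : SimpleGraph V} {n : ℕ} {k s : ℕ → V}

/-- two further legs -/
theorem legs {i j : ℕ} (hn : 4 ≤ n) (hi : i < n) (hj : j < n) (hij : i ≠ j) :
    ∃ σ : ℕ → ℕ, σ 0 = i ∧ σ 1 = j ∧ (∀ a < 4, σ a < n) ∧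
      ∀ a < 4, ∀ b < 4, σ a = σ b → a = b := by
  have c1 : 1 < (Finset.range n \ {i, j}).card := by
    have h1 := Finset.le_card_sdiff ({i, j} : Finset ℕ) (Finset.range n)
    have h2 : ({i, j} : Finset ℕ).card ≤ 2 := Finset.card_le_two
    rw [Finset.card_range] at h1
    omega
  obtain ⟨c, hc, d, hd, hcd⟩ := Finset.one_lt_card.1 c1
  simp only [Finset.mem_sdiff, Finset.mem_range, Finset.mem_insert, Finset.mem_singleton,
    not_or] at hc hd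
  refine ⟨fun a => if a = 0 then i else if a = 1 then j else if a = 2 then c else d, rfl, rfl,
    fun a ha => ?_, fun a ha b hb hab => ?_⟩
  · dsimp only
    split_ifs <;> omega
  · dsimp only at hab
    split_ifs at hab <;> omega

/-- a further leg -/
theorem leg (hn : 4 ≤ n) (i j : ℕ) : ∃ l < n, l ≠ i ∧ l ≠ j := by
  by_cases h0 : i ≠ 0 ∧ j ≠ 0
  · exact ⟨0, by omega, h0.1.symm, h0.2.symm⟩
  · by_cases h1 : i ≠ 1 ∧ j ≠ 1
    · exact ⟨1, by omega, h1.1.symm, h1.2.symm⟩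
    · exact ⟨2, by omega, by omega, by omega⟩

section restrict

variable {σ : ℕ → ℕ}

theorem rP (hσ : ∀ a < 4, σ a < n) (inj : ∀ a < 4, ∀ b < 4, σ a = σ b → a = b) {c i : ℕ}
    (hc : c < 4) (hci : σ c = i) {u : V} (h : u ∈ PT G n k s i) :
    u ∈ PT G 4 (k ∘ σ) (s ∘ σ) c := by
  refine ⟨fun a ha => ?_, fun a ha hac => ?_⟩
  · refine (h.1 (σ a) (hσ a ha)).trans ⟨fun h1 h2 => h1 (by rw [h2, hci]), fun h1 h2 => h1 ?_⟩
    exact inj a ha c hc (h2.trans hci.symm)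
  · exact h.2 (σ a) (hσ a ha) fun h2 => hac (inj a ha c hc (h2.trans hci.symm))

theorem rV (hσ : ∀ a < 4, σ a < n) (inj : ∀ a < 4, ∀ b < 4, σ a = σ b → a = b) {c i : ℕ}
    (hc : c < 4) (hci : σ c = i) {u : V} (h : u ∈ VT G n s i) :
    u ∈ VT G 4 (s ∘ σ) c := by
  intro a ha
  refine (h (σ a) (hσ a ha)).trans ⟨fun h1 h2 => h1 (by rw [h2, hci]), fun h1 h2 => h1 ?_⟩
  exact inj a ha c hc (h2.trans hci.symm)

theorem rU (hσ : ∀ a < 4, σ a < n) {u : V} (h : u ∈ UT G n s) : u ∈ UT G 4 (s ∘ σ) :=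
  fun a ha => h (σ a) (hσ a ha)

theorem rA (hσ : ∀ a < 4, σ a < n) {u : V} (h : u ∈ AT G n k s) :
    u ∈ AT G 4 (k ∘ σ) (s ∘ σ) :=
  ⟨fun a ha => h.1 (σ a) (hσ a ha), fun a ha => h.2 (σ a) (hσ a ha)⟩

theorem rE (hσ : ∀ a < 4, σ a < n) {u : V} (h : u ∈ ET G n k s) :
    u ∈ ET G 4 (k ∘ σ) (s ∘ σ) :=
  ⟨fun a ha => h.1 (σ a) (hσ a ha), fun a ha => h.2 (σ a) (hσ a ha)⟩

end restrict

section types

/-- `u` is a vertex of the spider -/
def InS (n : ℕ) (k s : ℕ → V) (u : V) : Prop := (∃ a < n, u = k a) ∨ ∃ a < n, u = s a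

theorem P_in (h : TSp G n k s) (hn : 4 ≤ n) {i : ℕ} {u : V} (hu : u ∈ PT G n k s i)
    (hs : InS n k s u) : u = s i := by
  rcases hs with ⟨a, ha, rfl⟩ | ⟨a, ha, rfl⟩
  · obtain ⟨l, hl, hla, hli⟩ := leg hn a i
    exact absurd ((h.ks a ha l hl).2 hla.symm) (hu.2 l hl hli)
  · by_cases hai : a = i
    · rw [hai]
    · exact absurd ((hu.1 a ha).2 hai).symm fun h1 => (h.ks a ha a ha).1 h1 rfl

theorem V_in (h : TSp G n k s) (hn : 4 ≤ n) {i : ℕ} (hi : i < n) {u : V} (hu : u ∈ VT G n s i)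
    (hs : InS n k s u) : u = k i := by
  rcases hs with ⟨a, ha, rfl⟩ | ⟨a, ha, rfl⟩
  · by_cases hai : a = i
    · rw [hai]
    · exact absurd rfl ((hu i hi).1 ((h.ks a ha i hi).2 hai))
  · obtain ⟨l, hl, _, hli⟩ := leg hn a i
    exact absurd ((hu l hl).2 hli) (h.ss a ha l hl)

theorem U_in (h : TSp G n k s) {u : V} (hu : u ∈ UT G n s) (hs : InS n k s u) : False := by
  rcases hs with ⟨a, ha, rfl⟩ | ⟨a, ha, rfl⟩
  · exact (h.ks a ha a ha).1 (hu a ha) rfl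
  · exact h.ss a ha a ha (hu a ha)

theorem A_in (h : TSp G n k s) {u : V} (hu : u ∈ AT G n k s) (hs : InS n k s u) : False := by
  rcases hs with ⟨a, ha, rfl⟩ | ⟨a, ha, rfl⟩
  · exact (hu.1 a ha).ne rfl
  · exact (h.ks a ha a ha).1 (hu.1 a ha).symm rfl

theorem E_in (h : TSp G n k s) (hn : 4 ≤ n) {u : V} (hu : u ∈ ET G n k s) (hs : InS n k s u) :
    False := by
  rcases hs with ⟨a, ha, rfl⟩ | ⟨a, ha, rfl⟩
  · obtain ⟨l, hl, hla, _⟩ := leg hn a a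
    exact hu.1 l hl (h.kk a ha l hl hla.symm)
  · obtain ⟨l, hl, hla, _⟩ := leg hn a a
    exact hu.1 l hl ((h.ks l hl a ha).2 hla).symm

end types

/-- the table for vertices outside the spider -/
theorem tab (hT : S_Tab2) (hR : S_Re) (hH : ¬ IMS H3 G Set.univ) (h : TSp G n k s) (hn : 4 ≤ n)
    {i j : ℕ} (hi : i < n) (hj : j < n) (hij : i ≠ j) {u w : V} (hu : ¬ InS n k s u)
    (hw : ¬ InS n k s w) (huw : u ≠ w) : ∃ σ : ℕ → ℕ, σ 0 = i ∧ σ 1 = j ∧ (∀ a < 4, σ a < n) ∧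
      (∀ a < 4, ∀ b < 4, σ a = σ b → a = b) ∧
      (u ∈ PT G 4 (k ∘ σ) (s ∘ σ) 0 → w ∈ PT G 4 (k ∘ σ) (s ∘ σ) 1 → ¬ G.Adj u w) ∧
      (u ∈ PT G 4 (k ∘ σ) (s ∘ σ) 0 → w ∈ VT G 4 (s ∘ σ) 1 → G.Adj u w) ∧
      (u ∈ PT G 4 (k ∘ σ) (s ∘ σ) 0 → w ∈ UT G 4 (s ∘ σ) → G.Adj u w) ∧
      (u ∈ PT G 4 (k ∘ σ) (s ∘ σ) 0 → w ∈ AT G 4 (k ∘ σ) (s ∘ σ) → ¬ G.Adj u w) ∧
      (u ∈ PT G 4 (k ∘ σ) (s ∘ σ) 0 → w ∈ ET G 4 (k ∘ σ) (s ∘ σ) → ¬ G.Adj u w) ∧
      (u ∈ VT G 4 (s ∘ σ) 0 → w ∈ AT G 4 (k ∘ σ) (s ∘ σ) → G.Adj u w) ∧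
      (u ∈ VT G 4 (s ∘ σ) 0 → w ∈ ET G 4 (k ∘ σ) (s ∘ σ) → ¬ G.Adj u w) := by
  obtain ⟨σ, h0, h1, hσ, inj⟩ := legs hn hi hj hij
  have h' := (hR V G n k s h).1 4 σ hσ inj
  refine ⟨σ, h0, h1, hσ, inj, ?_⟩
  exact hT V G (k ∘ σ) (s ∘ σ) hH h' u w
    (fun a ha he => hu (Or.inl ⟨σ a, hσ a ha, he⟩))
    (fun a ha he => hu (Or.inr ⟨σ a, hσ a ha, he⟩))
    (fun a ha he => hw (Or.inl ⟨σ a, hσ a ha, he⟩))
    (fun a ha he => hw (Or.inr ⟨σ a, hσ a ha, he⟩)) huw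

end hT2Aux

open hT2Aux in
/-- **T2.** -/
theorem hT2 : S_T2 := by
  intro hT hR V G n k s hH h hn i hi u w
  obtain ⟨j₀, hj₀, hji, _⟩ := leg hn i i
  refine ⟨fun j hj hij hu hw => ?_, fun j hj hij hu hw => ?_, fun hu hw => ?_, fun hu hw => ?_,
    fun hu hw => ?_, fun hu hw => ?_, fun hu hw => ?_⟩
  · by_cases hus : InS n k s u
    · rw [P_in h hn hu hus]
      exact fun h1 => hw.2 i hi hij h1.symm
    by_cases hws : InS n k s w
    · rw [P_in h hn hw hws]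
      exact hu.2 j hj hij.symm
    have huw : u ≠ w := by
      rintro rfl
      exact (hu.1 i hi).1 ((hw.1 i hi).2 hij) rfl
    obtain ⟨σ, h0, h1, hσ, inj, t⟩ := tab hT hR hH h hn hi hj hij hus hws huw
    exact t.1 (rP hσ inj (by omega) h0 hu) (rP hσ inj (by omega) h1 hw)
  · by_cases hus : InS n k s u
    · rw [P_in h hn hu hus]
      exact ((hw i hi).2 hij).symm
    by_cases hws : InS n k s w
    · rw [V_in h hn hj hw hws]
      exact (hu.1 j hj).2 hij.symm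
    have huw : u ≠ w := by
      rintro rfl
      obtain ⟨l, hl, hli, hlj⟩ := leg hn i j
      exact hu.2 l hl hli ((hw l hl).2 hlj)
    obtain ⟨σ, h0, h1, hσ, inj, t⟩ := tab hT hR hH h hn hi hj hij hus hws huw
    exact t.2.1 (rP hσ inj (by omega) h0 hu) (rV hσ inj (by omega) h1 hw)
  · by_cases hus : InS n k s u
    · rw [P_in h hn hu hus]
      exact (hw i hi).symm
    have hws : ¬ InS n k s w := U_in h hw
    have huw : u ≠ w := by
      rintro rfl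
      exact hu.2 j₀ hj₀ hji (hw j₀ hj₀)
    obtain ⟨σ, h0, _, hσ, inj, t⟩ := tab hT hR hH h hn hi hj₀ hji.symm hus hws huw
    exact t.2.2.1 (rP hσ inj (by omega) h0 hu) (rU hσ hw)
  · by_cases hus : InS n k s u
    · rw [P_in h hn hu hus]
      exact fun h1 => hw.2 i hi h1.symm
    have hws : ¬ InS n k s w := A_in h hw
    have huw : u ≠ w := by
      rintro rfl
      exact (hu.1 i hi).1 (hw.1 i hi) rfl
    obtain ⟨σ, h0, _, hσ, inj, t⟩ := tab hT hR hH h hn hi hj₀ hji.symm hus hws huw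
    exact t.2.2.2.1 (rP hσ inj (by omega) h0 hu) (rA hσ hw)
  · by_cases hus : InS n k s u
    · rw [P_in h hn hu hus]
      exact fun h1 => hw.2 i hi h1.symm
    have hws : ¬ InS n k s w := E_in h hn hw
    have huw : u ≠ w := by
      rintro rfl
      exact hw.1 j₀ hj₀ ((hu.1 j₀ hj₀).2 hji)
    obtain ⟨σ, h0, _, hσ, inj, t⟩ := tab hT hR hH h hn hi hj₀ hji.symm hus hws huw
    exact t.2.2.2.2.1 (rP hσ inj (by omega) h0 hu) (rE hσ hw)
  · by_cases hus : InS n k s u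
    · rw [V_in h hn hi hu hus]
      exact (hw.1 i hi).symm
    have hws : ¬ InS n k s w := A_in h hw
    have huw : u ≠ w := by
      rintro rfl
      exact hw.2 j₀ hj₀ ((hu j₀ hj₀).2 hji)
    obtain ⟨σ, h0, _, hσ, inj, t⟩ := tab hT hR hH h hn hi hj₀ hji.symm hus hws huw
    exact t.2.2.2.2.2.1 (rV hσ inj (by omega) h0 hu) (rA hσ hw)
  · by_cases hus : InS n k s u
    · rw [V_in h hn hi hu hus]
      exact fun h1 => hw.1 i hi h1.symm
    have hws : ¬ InS n k s w := E_in h hn hw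
    have huw : u ≠ w := by
      rintro rfl
      exact hw.2 j₀ hj₀ ((hu j₀ hj₀).2 hji)
    obtain ⟨σ, h0, _, hσ, inj, t⟩ := tab hT hR hH h hn hi hj₀ hji.symm hus hws huw
    exact t.2.2.2.2.2.2 (rV hσ inj (by omega) h0 hu) (rE hσ hw)

end Pool.Agent.MPd439b2.H3S
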