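import Pool.Agent.Lib.MP_d439b2_co.X3.H3S.Spec

/-!
# MP_d439b2_co, X3/H3S/Thick: assembly
-/

set_option autoImplicit false

namespace Pool.Agent.MPd439b2.H3S

open Pool.Agent.MPd439b2
open Pool.Agent.MPd439b2.Rep

theorem hThick : W.S_RamC → S_Re → S_Tab1 → S_Tab2 → S_T1 → S_T2 → A0.S_PB → S_J1 → S_Rb → S_Mx →
    S_Cu → S_Thick := by
  intro hR hRe hTab1 hTab2 hT1 hT2 hPB hJ1 hRb hMx hCu t
  obtain ⟨M, hM⟩ := hRb hR hPB hJ1 t
  refine ⟨M + 2, fun β => ⟨M + 2 * (β (M + 2) + 1) + 4, ?_⟩⟩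
  intro c₀ hc₀ V _ G hFr hL k s hT
  classical
  obtain ⟨b, hb⟩ : ∃ b, b = β (M + 2) + 1 := ⟨_, rfl⟩
  obtain ⟨n, hn⟩ : ∃ n, n = M + 2 * (β (M + 2) + 1) + 4 := ⟨_, rfl⟩
  rw [← hn] at hT
  obtain ⟨B, W, hB, hW, hBW⟩ := hMx t M hM V G n k s hFr.2 hT
  have hinj : ∀ i < n, ∀ j < n, s i = s j → i = j := by
    intro i hi j hj hij
    by_contra hne
    exact (hRe V G n k s hT).2.2.1 i hi j hj hne hij
  have hcard : b ≤ (Finset.range n \ B).card := by
    have := Finset.le_card_sdiff B (Finset.range n)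
    rw [Finset.card_range] at this
    omega
  obtain ⟨I, hI, hIb⟩ := Finset.exists_subset_card_eq hcard
  have hIn : ∀ i ∈ I, i < n := fun i hi => Finset.mem_range.1 (Finset.mem_sdiff.1 (hI hi)).1
  have hIB : ∀ i ∈ I, i ∉ B := fun i hi => (Finset.mem_sdiff.1 (hI hi)).2
  have h4 : 4 ≤ n := by omega
  have hcut := hCu V G n k s h4 (hT1 hTab1 hRe V G n k s hFr.1 hT h4)
    (hT2 hTab2 hRe V G n k s hFr.1 hT h4) I W hIn
    (fun i hi v hv w hw hwW => hBW i (hIn i hi) (hIB i hi) v hv w hw hwW)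
  refine link_false hL hc₀ (hcut.trans (by omega)) ?_ ?_
  · have h1 : ((I.image s : Finset V) : Set V) ⊆
        {x | ∃ i ∈ I, x ∈ VT G n s i ∨ x ∈ PT G n k s i} := by
      intro x hx
      obtain ⟨i, hi, rfl⟩ := Finset.mem_image.1 (Finset.mem_coe.1 hx)
      refine ⟨i, hi, Or.inr ⟨fun j hj => ?_, fun j hj hji => ?_⟩⟩
      · rw [SimpleGraph.adj_comm]
        exact hT.ks j hj i (hIn i hi)
      · exact hT.ss i (hIn i hi) j hj
    have h2 := Set.ncard_le_ncard h1 (Set.toFinite _)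
    rw [Set.ncard_coe_finset, Finset.card_image_of_injOn] at h2
    · omega
    · intro i hi j hj hij
      exact hinj i (hIn i (Finset.mem_coe.1 hi)) j (hIn j (Finset.mem_coe.1 hj)) hij
  · have h1 : (((Finset.range n \ I).image s : Finset V) : Set V) ⊆
        {x | ∃ i ∈ I, x ∈ VT G n s i ∨ x ∈ PT G n k s i}ᶜ := by
      intro x hx
      obtain ⟨j, hj, rfl⟩ := Finset.mem_image.1 (Finset.mem_coe.1 hx)
      have hjn : j < n := Finset.mem_range.1 (Finset.mem_sdiff.1 hj).1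
      have hjI : j ∉ I := (Finset.mem_sdiff.1 hj).2
      rintro ⟨i, hi, h | h⟩
      · obtain ⟨l, hl, hli⟩ : ∃ l < n, l ≠ i := by
          rcases Nat.eq_zero_or_pos i with h0 | h0
          · exact ⟨1, by omega, by omega⟩
          · exact ⟨0, by omega, by omega⟩
        exact hT.ss j hjn l hl ((h l hl).2 hli)
      · have hji : j ≠ i := by
          rintro rfl
          exact hjI hi
        exact (hT.ks j hjn j hjn).1 ((h.1 j hjn).2 hji).symm rfl
    have h2 := Set.ncard_le_ncard h1 (Set.toFinite _)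
    rw [Set.ncard_coe_finset, Finset.card_image_of_injOn] at h2
    · have h3 := Finset.le_card_sdiff I (Finset.range n)
      rw [Finset.card_range] at h3
      omega
    · intro i hi j hj hij
      exact hinj i (Finset.mem_range.1 (Finset.mem_sdiff.1 (Finset.mem_coe.1 hi)).1) j
        (Finset.mem_range.1 (Finset.mem_sdiff.1 (Finset.mem_coe.1 hj)).1) hij

end Pool.Agent.MPd439b2.H3S
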