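import Pool.Agent.Lib.MP_d439b2_co.X3.H3S.Tab
import Pool.Agent.Lib.MP_d439b2_co.X3.H3S.Re
import Pool.Agent.Lib.MP_d439b2_co.X3.H3S.T1
import Pool.Agent.Lib.MP_d439b2_co.X3.H3S.T2
import Pool.Agent.Lib.MP_d439b2_co.X3.H3S.J1
import Pool.Agent.Lib.MP_d439b2_co.X3.H3S.Rb
import Pool.Agent.Lib.MP_d439b2_co.X3.H3S.Mx
import Pool.Agent.Lib.MP_d439b2_co.X3.H3S.Cu
import Pool.Agent.Lib.MP_d439b2_co.X3.H3S.Thick
import Pool.Agent.Lib.MP_d439b2_co.A0.PB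
import Pool.Agent.Lib.MP_d439b2_co.W.RamC

/-!
# MP_d439b2_co, X3/H3S: the thick spider for `K3:0,01,12`, assembly
-/

set_option autoImplicit false

namespace Pool.Agent.MPd439b2.H3S

open Pool.Agent.MPd439b2

/-- **THEOREM (thick spider, `K3:0,01,12`).** -/
theorem thickF : S_Thick := hThick W.ramC hRe hTab1 hTab2 hT1 hT2 A0.aPB hJ1 hRb hMx hCu

end Pool.Agent.MPd439b2.H3S
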