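import Pool.Agent.Lib.MP_d439b2_co.Rep.Cut
import Pool.Agent.Lib.MP_d439b2_co.A0.Spec
import Pool.Agent.Lib.MP_d439b2_co.HC.EngC

/-!
# MP_d439b2_co, X3/H3S: the thick spider for `K3:0,01,12` (note 2760 (7) of helper22, corrected)

**Theorem.** Let `H3 = K3:0,01,12` and `J_t = co(P_3 + t P_2)`.  For every `t` there is `c₁` such that for all `β`
there is `n` such that a graph `G` without the induced minors `H3` and `J_t` and with `Link β c₀ G`, `c₁ ≤ c₀`, has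
no thick spider with `n` legs.

Every `S_...` is a statement to be proved in its own file; the docstring contains the complete proof; the used
statements are hypotheses of the theorem, in the order given in `(Uses ...)`.  The theorem for `S_X` is
called `hX` and is in the file `X3/H3S/X.lean`.  `a ~ b` means `G.Adj a b`.
-/

set_option autoImplicit false

namespace Pool.Agent.MPd439b2.H3S

open Pool.Agent.MPd439b2
open Pool.Agent.MPd439b2.Rep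

variable {V : Type}

/-- `K3:0,01,12` -/
abbrev H3 : SimpleGraph (Fin 3 ⊕ Fin 3) := KA 3 3 ![{0}, {0, 1}, {1, 2}]

/-- the thick spider with `n` legs: the `k i` form a clique, the `s i` are pairwise non-adjacent, `k i ~ s j` iff
`i ≠ j` -/
structure TSp (G : SimpleGraph V) (n : ℕ) (k s : ℕ → V) : Prop where
  kk : ∀ i < n, ∀ j < n, i ≠ j → G.Adj (k i) (k j)
  ss : ∀ i < n, ∀ j < n, ¬ G.Adj (s i) (s j)
  ks : ∀ i < n, ∀ j < n, (G.Adj (k i) (s j) ↔ i ≠ j)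

/-- type `U`: complete to the `s i` -/
def UT (G : SimpleGraph V) (n : ℕ) (s : ℕ → V) : Set V := {u | ∀ j < n, G.Adj u (s j)}

/-- type `V i`: complete to the `s j`, except `s i` (`k i` is of this type) -/
def VT (G : SimpleGraph V) (n : ℕ) (s : ℕ → V) (i : ℕ) : Set V := {u | ∀ j < n, (G.Adj u (s j) ↔ j ≠ i)}

/-- type `P i`: complete to the `k j`, except `k i`, anticomplete to the `s j`, except perhaps `s i`
(`s i` is of this type) -/
def PT (G : SimpleGraph V) (n : ℕ) (k s : ℕ → V) (i : ℕ) : Set V :=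
  {u | (∀ j < n, (G.Adj u (k j) ↔ j ≠ i)) ∧ ∀ j < n, j ≠ i → ¬ G.Adj u (s j)}

/-- type `A`: complete to the `k i`, anticomplete to the `s i` -/
def AT (G : SimpleGraph V) (n : ℕ) (k s : ℕ → V) : Set V :=
  {u | (∀ j < n, G.Adj u (k j)) ∧ ∀ j < n, ¬ G.Adj u (s j)}

/-- type `E`: anticomplete to the spider -/
def ET (G : SimpleGraph V) (n : ℕ) (k s : ℕ → V) : Set V :=
  {u | (∀ j < n, ¬ G.Adj u (k j)) ∧ ∀ j < n, ¬ G.Adj u (s j)}

/-! ### the tables for four legs (certificates: `X3/H3S/Tab.lean`) -/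

/-- the bits `0..3` of `t` are the adjacencies of `u` to `k 0, .., k 3`, the bits `4..7` those to `s 0, .., s 3` -/
def Bt (G : SimpleGraph V) (k s : ℕ → V) (u : V) (t : ℕ) : Prop :=
  (∀ j < 4, (G.Adj u (k j) ↔ t.testBit j = true)) ∧ ∀ j < 4, (G.Adj u (s j) ↔ t.testBit (4 + j) = true)

/-- the allowed traces of one further vertex on the spider with four legs -/
def ok1 (t : ℕ) : Bool :=
  [15, 14, 13, 11, 7].contains (t / 16) || [0, 15, 14, 13, 11, 7].contains t ||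
    [30, 45, 75, 135].contains t

/-- **Tab1.** (helper29: `hTab1` in `X3/H3S/Tab.lean`) -/
def S_Tab1 : Prop := ∀ (V : Type) (G : SimpleGraph V) (k s : ℕ → V), ¬ IMS H3 G Set.univ → TSp G 4 k s →
  ∀ u, (∀ i < 4, u ≠ k i) → (∀ i < 4, u ≠ s i) → ∃ t < 256, Bt G k s u t ∧ ok1 t = true

/-- **Tab2.** The pair table: `p` of type `P 0` and `w`, both different from the vertices of the spider with four
legs (helper29: `hTab2` in `X3/H3S/Tab.lean`) -/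
def S_Tab2 : Prop := ∀ (V : Type) (G : SimpleGraph V) (k s : ℕ → V), ¬ IMS H3 G Set.univ → TSp G 4 k s →
  ∀ u w, (∀ i < 4, u ≠ k i) → (∀ i < 4, u ≠ s i) → (∀ i < 4, w ≠ k i) → (∀ i < 4, w ≠ s i) → u ≠ w →
    (u ∈ PT G 4 k s 0 → w ∈ PT G 4 k s 1 → ¬ G.Adj u w) ∧
    (u ∈ PT G 4 k s 0 → w ∈ VT G 4 s 1 → G.Adj u w) ∧
    (u ∈ PT G 4 k s 0 → w ∈ UT G 4 s → G.Adj u w) ∧
    (u ∈ PT G 4 k s 0 → w ∈ AT G 4 k s → ¬ G.Adj u w) ∧
    (u ∈ PT G 4 k s 0 → w ∈ ET G 4 k s → ¬ G.Adj u w) ∧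
    (u ∈ VT G 4 s 0 → w ∈ AT G 4 k s → G.Adj u w) ∧
    (u ∈ VT G 4 s 0 → w ∈ ET G 4 k s → ¬ G.Adj u w)

/-! ### spiders -/

/-- **Re.** Restriction of a spider to some legs, and different vertices.

Proof. (1) `TSp` for `k ∘ σ`, `s ∘ σ`: immediate.  (2) `k i ≠ k j` for `i ≠ j` (adjacent).  (3) `s i ≠ s j` for
`i ≠ j`: `k i ~ s j`, `k i ≁ s i`.  (4) `k i ≠ s j` if `3 ≤ n`: take `l ≠ i`, `l ≠ j`, `l < n`: `k i ~ s l`, but
`s j ≁ s l`. -/
def S_Re : Prop := ∀ (V : Type) (G : SimpleGraph V) (n : ℕ) (k s : ℕ → V), TSp G n k s →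
  (∀ (m : ℕ) (σ : ℕ → ℕ), (∀ i < m, σ i < n) → (∀ i < m, ∀ j < m, σ i = σ j → i = j) →
    TSp G m (k ∘ σ) (s ∘ σ)) ∧
  (∀ i < n, ∀ j < n, i ≠ j → k i ≠ k j) ∧ (∀ i < n, ∀ j < n, i ≠ j → s i ≠ s j) ∧
  (3 ≤ n → ∀ i < n, ∀ j < n, k i ≠ s j)

/-- **T1.** The table of one vertex.  (Uses `S_Tab1`, `S_Re`.)

Proof. `k i ∈ V i`, `s i ∈ P i`.  Let `u` be different from all `k i`, `s i`.  For four different legs
`a, b, c, d` (`σ 0 = a`, ...; `S_Re`, `S_Tab1`) we know (decide): ONE of: `u` sees all or all but one of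
`s a, s b, s c, s d`; or `u` sees none of them and sees none, all or all but one of `k a, k b, k c, k d`; or `u` sees
exactly one `s x` and exactly the `k y`, `y ≠ x`.  (*)
Let `M = {i < n | u ≁ s i}`.  `M = ∅`: `U`.  `M = {i}`: `V i`.  Otherwise take `a ≠ b` in `M`.
By (*) (for `a, b` and any two others `c, d`) at most one of `c, d` is seen by `u`, so at most one `s j` is seen (`n ≥ 4`).
If `s j` is seen: for every `i ≠ j` choose four legs containing `i, j` and two elements of `M` (`M` contains all legs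
except `j`): (*) gives `u ~ k i` and `u ≁ k j`: `u ∈ P j`.  If no `s j` is seen: (*) says that among any four legs none,
all, or all but one of the `k`'s are seen, so if `u ≁ k i`, `u ≁ k j`, `i ≠ j`, then nothing is seen: `u ∈ E`.  Otherwise
at most one `k i` is not seen: `A` or `P i`. -/
def S_T1 : Prop := S_Tab1 → S_Re → ∀ (V : Type) (G : SimpleGraph V) (n : ℕ) (k s : ℕ → V),
  ¬ IMS H3 G Set.univ → TSp G n k s → 4 ≤ n → ∀ u, u ∈ UT G n s ∨ (∃ i < n, u ∈ VT G n s i) ∨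
    (∃ i < n, u ∈ PT G n k s i) ∨ u ∈ AT G n k s ∨ u ∈ ET G n k s

/-- **T2.** The table of two vertices.  (Uses `S_Tab2`, `S_Re`.)

Proof. First: a vertex of the spider which is of type `P i` is `s i` (`k j` is not: it sees some `s l`,
`l ≠ i, j`); one of type `V i` is `k i` (`s j` sees no `s l`); `k j` and `s j` are not of type `U`
(`k j ≁ s j`), not of type `A` (`k j ≁ k j`; `s j ≁ k j`), not of type `E` (they see some `k l`).
If `u` and `w` are not in the spider: choose four legs `σ 0 = i`, `σ 1 = j` (or any other leg), `σ 2, σ 3` other legs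
(`4 ≤ n`); the type of `u` restricts to the type with index `0`, etc.; `S_Tab2` for `k ∘ σ`, `s ∘ σ`.  `u ≠ w`: the types
are disjoint (`P i`, `P j`: `k i`; `P i` and `V j`, `U`: `s l`, `l ≠ i, j`; `P i` and `A`: `k i`; `P i` and `E`: `k j`,
`j ≠ i`; `V i` and `A`, `E`: `s l`).
If `u = s i` (`u ∈ P i`): `w ∈ P j`: `w ≁ s i` by definition (`i ≠ j`); `w ∈ V j`: `w ~ s i`; `w ∈ U`: `w ~ s i`; `w ∈ A`
or `E`: `w ≁ s i`.  If `u = k i` (`u ∈ V i`): `w ∈ A`: `w ~ k i`; `w ∈ E`: `w ≁ k i`.  If `w` is in the spider: `w = s j`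
(`w ∈ P j`): `u ∈ P i` does not see `s j`; `w = k j` (`w ∈ V j`): `u ∈ P i` sees `k j`. -/
def S_T2 : Prop := S_Tab2 → S_Re → ∀ (V : Type) (G : SimpleGraph V) (n : ℕ) (k s : ℕ → V),
  ¬ IMS H3 G Set.univ → TSp G n k s → 4 ≤ n → ∀ i < n, ∀ u w,
    (∀ j < n, i ≠ j → u ∈ PT G n k s i → w ∈ PT G n k s j → ¬ G.Adj u w) ∧
    (∀ j < n, i ≠ j → u ∈ PT G n k s i → w ∈ VT G n s j → G.Adj u w) ∧
    (u ∈ PT G n k s i → w ∈ UT G n s → G.Adj u w) ∧
    (u ∈ PT G n k s i → w ∈ AT G n k s → ¬ G.Adj u w) ∧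
    (u ∈ PT G n k s i → w ∈ ET G n k s → ¬ G.Adj u w) ∧
    (u ∈ VT G n s i → w ∈ AT G n k s → G.Adj u w) ∧
    (u ∈ VT G n s i → w ∈ ET G n k s → ¬ G.Adj u w)

/-! ### rainbow matchings of non-edges -/

/-- **J1.** A model of `J_t`.

Proof. `Spid ![0, 1, 1]`: the centre `none` and the leaves `some ⟨1, 0⟩`, `some ⟨2, 0⟩` (see `A0/PB.lean`: copy and
adapt).  Branch sets: `inl none ↦ {s 0}`, `inl (some ⟨1, 0⟩) ↦ {v 0}`, `inl (some ⟨2, 0⟩) ↦ {s 1}`,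
`inr (q, false) ↦ {v (q + 2)}`, `inr (q, true) ↦ {s (q + 2), w (q + 2)}`.  In `J_t`: `none` is not adjacent to the two
leaves, the leaves are adjacent; `(q, false)`, `(q, true)` are not adjacent; all others are adjacent.  Check:
`s 0 ≁ v 0`, `s 0 ≁ s 1`, `v 0 ~ s 1`; `v i ≁ s i`, `v i ≁ w i`; `v i ~ v j`, `v i ~ s j` (`i ≠ j`), `w i ~ s j` (all `i, j`);
`s 0, s 1 ~ w i`; `{s i, w i}` is connected.  Disjoint: `v i ≠ v j`, `s i ≠ s j` (`v i ~ s j`, `v i ≁ s i`), `w i ≠ w j`;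
`w i ≠ v j` (`w i ~ s j`, `v j ≁ s j`); `w i ≠ s j` (`w i ~ s j`); `v i ≠ s j`: `v i` sees some `s l`, `l ≠ i`; `s j` does
not see `s l` (`t + 2 ≥ 2`). -/
def S_J1 : Prop := ∀ (t : ℕ) (V : Type) (G : SimpleGraph V) (v s w : ℕ → V),
  (∀ i < t + 2, ∀ j < t + 2, i ≠ j → G.Adj (v i) (v j)) → (∀ i < t + 2, ∀ j < t + 2, ¬ G.Adj (s i) (s j)) →
  (∀ i < t + 2, ∀ j < t + 2, (G.Adj (v i) (s j) ↔ i ≠ j)) → (∀ i < t + 2, ∀ j < t + 2, G.Adj (w i) (s j)) →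
  (∀ i < t + 2, ¬ G.Adj (v i) (w i)) → (∀ i < t + 2, ∀ j < t + 2, w i = w j → i = j) →
  IMS (A0.JP t) G Set.univ

/-- **Rb.** Rainbow matchings of non-edges are bounded.  (Uses `W.S_RamC`, `A0.S_PB`, `S_J1`.)

Here `ι i` are different legs, `v i` is of type `V (ι i)`, `w i` is of type `U` or of type `V j` with `j ≠ ι i`, the `w i`
are different and `v i ≁ w i`.

Proof. `M` = the number of `W.S_RamC` for the colours `Prop × Prop × Prop` (or `Bool` with `decide`) and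
`2 t + 3`; `χ a b = (v a ~ v b, w a ~ s (ι b), w b ~ s (ι a))` for `a < b`: `σ` with constant colours.
Every `w a` sees all `s j`, `j < n`, except at most one.  So for `N = 2 t + 3 ≥ 3` indices `σ 0 < σ 1 < ..`:
the second colour is `true` (`w (σ 0)` would miss `s (ι (σ 1))` and `s (ι (σ 2))`), the third as well (`w (σ 2)` would
miss `s (ι (σ 0))` and `s (ι (σ 1))`); and `w a ~ s (ι a)` for all `a` (`w a ∈ V j` only with `j ≠ ι a`).  So
`w (σ a) ~ s (ι (σ b))` for all `a, b < N`.  `v (σ a) ~ s (ι (σ b))` iff `a ≠ b`, and the `s`'s are pairwise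
non-adjacent.  If `v (σ a) ≁ v (σ b)` for all `a < b`: `A0.S_PB` with `a ↦ v (σ a)`, `w ↦ s (ι (σ a))`.  If
`v (σ a) ~ v (σ b)` for all `a < b`: `S_J1` (the first `t + 2` indices). -/
def S_Rb : Prop := W.S_RamC → A0.S_PB → S_J1 → ∀ t : ℕ, ∃ M : ℕ, ∀ (V : Type) (G : SimpleGraph V)
  (n : ℕ) (k s : ℕ → V), ¬ IMS (A0.JP t) G Set.univ → TSp G n k s →
  ∀ (ι : ℕ → ℕ) (v w : ℕ → V), (∀ i < M, ι i < n) → (∀ i < M, ∀ j < M, ι i = ι j → i = j) →
    (∀ i < M, v i ∈ VT G n s (ι i)) →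
    (∀ i < M, w i ∈ UT G n s ∨ ∃ j < n, j ≠ ι i ∧ w i ∈ VT G n s j) →
    (∀ i < M, ∀ j < M, w i = w j → i = j) → (∀ i < M, ¬ G.Adj (v i) (w i)) → False

/-- **Mx.** A maximal rainbow matching covers the non-edges.  (Uses `S_Rb`.)

Proof. Let `r` be maximal such that there are `ι, v, w` as in Rb with `r` instead of `M` (`r < M`: for `r ≥ M` Rb gives
a contradiction; `r = 0` is possible; `Nat.findGreatest` or induction).  `B = {ι i | i < r}`,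
`W = {w i | i < r}`.  If `i < n`, `i ∉ B`, `v ∈ V i`, `w ∉ W`, `w ∈ U` or `w ∈ V j`, `j < n`, `j ≠ i`, and `v ≁ w`, then
`ι, v, w` can be extended (value `i`, `v`, `w` at `r`): contradiction. -/
def S_Mx : Prop := ∀ (t M : ℕ), (∀ (V : Type) (G : SimpleGraph V)
  (n : ℕ) (k s : ℕ → V), ¬ IMS (A0.JP t) G Set.univ → TSp G n k s →
  ∀ (ι : ℕ → ℕ) (v w : ℕ → V), (∀ i < M, ι i < n) → (∀ i < M, ∀ j < M, ι i = ι j → i = j) →
    (∀ i < M, v i ∈ VT G n s (ι i)) →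
    (∀ i < M, w i ∈ UT G n s ∨ ∃ j < n, j ≠ ι i ∧ w i ∈ VT G n s j) →
    (∀ i < M, ∀ j < M, w i = w j → i = j) → (∀ i < M, ¬ G.Adj (v i) (w i)) → False) →
  ∀ (V : Type) [Finite V] (G : SimpleGraph V) (n : ℕ) (k s : ℕ → V), ¬ IMS (A0.JP t) G Set.univ →
    TSp G n k s → ∃ (B : Finset ℕ) (W : Set V), B.card ≤ M ∧ W.ncard ≤ M ∧
      ∀ i < n, i ∉ B → ∀ v ∈ VT G n s i, ∀ w, (w ∈ UT G n s ∨ ∃ j < n, j ≠ i ∧ w ∈ VT G n s j) →
        w ∉ W → G.Adj v w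

/-- **Cu.** The cut.  (Uses `S_T1`, `S_T2` in the form of their conclusions.)

Proof. `X = ⋃ i ∈ I, (V i ∪ P i)`, `P_I = ⋃ i ∈ I, P i`, `V_I = ⋃ i ∈ I, V i`.  By the table of one vertex `Xᶜ` is
contained in the union of `U, A, E` and the `V j`, `P j`, `j < n`, `j ∉ I`.
`rk G P_I Xᶜ ≤ 1` (`rk_one` with `T = {b | b ∈ U ∨ ∃ j < n, b ∈ V j}`): for `p ∈ P i`, `b ∈ Xᶜ`: if `b ∈ U` or `b ∈ V j`
then `p ~ b`; if `b ∈ P j` (`j ≠ i` since `j ∉ I`), `A` or `E` then `p ≁ b`, and `b ∉ T` (an element of `P j`, `A`, `E` misses at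
least three `s l`, so it is not in `U` or `V j'`; `n ≥ 4`).
`rk G V_I (Xᶜ \ W) ≤ 1` (`rk_one` with `T = {b | b ∉ E}`): for `v ∈ V i`, `b ∈ Xᶜ \ W`: `b ∈ U`: `v ~ b` by `hW`; `b ∈ V j`
(`j ≠ i`): `v ~ b` by `hW`; `b ∈ P j`: `v ~ b` (T2 with the roles exchanged: `b ∈ P j`, `v ∈ V i`, `j ≠ i`); `b ∈ A`: `v ~ b`;
`b ∈ E`: `v ≁ b`; and if `b ∈ E` then `b ∉ U, V j, P j, A` is not needed: `T` is defined as the complement of `E`, so for
`b ∉ E` one of the other cases holds.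
So `cr G X = rk G X Xᶜ ≤ rk G P_I Xᶜ + rk G V_I Xᶜ ≤ 1 + (1 + |W|)` (`rk_union`, `rk_union_right`, `rk_card_right`). -/
def S_Cu : Prop := ∀ (V : Type) [Finite V] (G : SimpleGraph V) (n : ℕ) (k s : ℕ → V), 4 ≤ n →
  (∀ u, u ∈ UT G n s ∨ (∃ i < n, u ∈ VT G n s i) ∨
    (∃ i < n, u ∈ PT G n k s i) ∨ u ∈ AT G n k s ∨ u ∈ ET G n k s) →
  (∀ i < n, ∀ u w,
    (∀ j < n, i ≠ j → u ∈ PT G n k s i → w ∈ PT G n k s j → ¬ G.Adj u w) ∧
    (∀ j < n, i ≠ j → u ∈ PT G n k s i → w ∈ VT G n s j → G.Adj u w) ∧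
    (u ∈ PT G n k s i → w ∈ UT G n s → G.Adj u w) ∧
    (u ∈ PT G n k s i → w ∈ AT G n k s → ¬ G.Adj u w) ∧
    (u ∈ PT G n k s i → w ∈ ET G n k s → ¬ G.Adj u w) ∧
    (u ∈ VT G n s i → w ∈ AT G n k s → G.Adj u w) ∧
    (u ∈ VT G n s i → w ∈ ET G n k s → ¬ G.Adj u w)) →
  ∀ (I : Finset ℕ) (W : Set V), (∀ i ∈ I, i < n) →
    (∀ i ∈ I, ∀ v ∈ VT G n s i, ∀ w, (w ∈ UT G n s ∨ ∃ j < n, j ≠ i ∧ w ∈ VT G n s j) →
        w ∉ W → G.Adj v w) →
    LK.cr G {x | ∃ i ∈ I, x ∈ VT G n s i ∨ x ∈ PT G n k s i} ≤ W.ncard + 2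

/-- **THEOREM (thick spider, `K3:0,01,12`).**  (Uses `W.S_RamC`, `S_Re`, `S_Tab1`, `S_Tab2`, `S_T1`, `S_T2`,
`A0.S_PB`, `S_J1`, `S_Rb`, `S_Mx`, `S_Cu`.)

Proof. `M` from Rb for `t`, `c₁ = M + 2`, `b = β c₁ + 1`, `n = M + 2 b + 4`.  Let `G` be a counterexample; `B`, `W` from
Mx; `I` = a set of `b` elements of `{0, .., n - 1} \ B`.  Cu: `X` has cut-rank `≤ M + 2 = c₁ ≤ c₀`.
`X` contains the `b` different vertices `s i`, `i ∈ I` (`s i ∈ P i`); `Xᶜ` contains the at least `b` different vertices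
`s j`, `j < n`, `j ∉ I` (`s j` is not in `V i`: it sees no `s`; not in `P i`, `i ≠ j`: `s j ≁ k j`).  `Link` gives
`|X| ≤ β c₁` or `|Xᶜ| ≤ β c₁`: contradiction. -/
def S_Thick : Prop := ∀ t : ℕ, ∃ c₁ : ℕ, ∀ β : ℕ → ℕ, ∃ n : ℕ, ∀ c₀ : ℕ, c₁ ≤ c₀ →
  ∀ (V : Type) [Finite V] (G : SimpleGraph V), Rep.Fr H3 (A0.JP t) G → Link β c₀ G →
    ∀ k s : ℕ → V, ¬ TSp G n k s

end Pool.Agent.MPd439b2.H3S
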