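import Pool.Agent.Lib.MP_d439b2_co.X3.H3S.Spec
import Pool.Agent.Lib.MP_d439b2_co.HC.D17

/-!
# MP_d439b2_co, X3/H3S, Tab: certificates for the tables of the thick spider (helper29)
-/

set_option autoImplicit false

namespace Pool.Agent.MPd439b2.H3S

open Pool.Agent.MPd439b2
open Pool.Agent.MPd439b2.Rep
open Pool.Agent.MPd439b2.BU
open Pool.Agent.MPd439b2.HC

variable {V : Type}

/-- the codes of the spider with four legs, `k 0, .., k 3, s 0, .., s 3` -/
def sp4 : List ℕ := [0, 1, 3, 7, 14, 13, 11, 7]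

/-- one further vertex -/
def tb1 : List (ℕ × List (List ℕ)) :=
  [(1, [[0], [2], [1], [8], [5], [4]]),
   (2, [[1], [2], [0], [8], [4], [5]]),
   (3, [[0], [3], [2], [8], [6], [4]]),
   (4, [[2], [1], [0], [8], [4], [6]]),
   (5, [[0], [3], [1], [8], [5], [4]]),
   (6, [[1], [3], [0], [8], [4], [5]]),
   (8, [[3], [1], [0], [8], [4], [7]]),
   (9, [[0], [2], [1], [8], [5], [4]]),
   (10, [[1], [2], [0], [8], [4], [5]]),
   (12, [[2], [1], [0], [8], [4], [6]]),
   (16, [[4, 1], [0], [2], [8], [6], [5]]),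
   (17, [[4, 1], [3], [2], [8], [6], [5]]),
   (18, [[1], [0], [2], [8], [6], [5]]),
   (19, [[0], [1], [8], [5], [6], [4]]),
   (20, [[1], [2], [4], [6], [7], [8]]),
   (21, [[0], [2], [8], [6], [5], [4]]),
   (22, [[1], [0], [3], [8], [7], [5]]),
   (23, [[0], [1], [8], [5], [6], [4]]),
   (24, [[1], [3], [4], [7], [6], [8]]),
   (25, [[0], [3], [8], [7], [5], [4]]),
   (26, [[1], [0], [2], [8], [6], [5]]),
   (27, [[0], [1], [8], [5], [6], [4]]),
   (28, [[1], [2], [4], [6], [7], [8]]),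
   (29, [[0], [2], [8], [6], [5], [4]]),
   (31, [[0], [1], [8], [5], [6], [4]]),
   (32, [[5, 0], [1], [2], [8], [6], [4]]),
   (33, [[0], [1], [2], [8], [6], [4]]),
   (34, [[5, 0], [3], [2], [8], [6], [4]]),
   (35, [[0], [3], [2], [8], [6], [4]]),
   (36, [[0], [2], [5], [6], [7], [8]]),
   (37, [[0], [1], [3], [8], [7], [4]]),
   (38, [[0], [2], [5], [6], [7], [8]]),
   (39, [[1], [0], [8], [4], [6], [5]]),
   (40, [[0], [3], [5], [7], [6], [8]]),
   (41, [[0], [1], [2], [8], [6], [4]]),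
   (42, [[0], [3], [5], [7], [6], [8]]),
   (43, [[1], [0], [8], [4], [6], [5]]),
   (44, [[0], [2], [5], [6], [7], [8]]),
   (46, [[0], [2], [5], [6], [7], [8]]),
   (47, [[1], [0], [8], [4], [6], [5]]),
   (48, [[0], [2], [8, 5], [6], [7], [4]]),
   (49, [[0], [2], [8, 5], [6], [7], [4]]),
   (50, [[0], [2], [8, 5], [6], [7], [4]]),
   (51, [[0], [2], [8, 5], [6], [7], [4]]),
   (52, [[0], [2], [8, 5], [6], [7], [4]]),
   (53, [[0], [2], [8], [6], [7], [4]]),
   (54, [[0], [2], [8, 5], [6], [7], [4]]),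
   (55, [[0], [2], [8], [6], [7], [4]]),
   (56, [[0], [2], [8, 5], [6], [7], [4]]),
   (57, [[0], [2], [8, 5], [6], [7], [4]]),
   (58, [[0], [2], [8, 5], [6], [7], [4]]),
   (59, [[0], [2], [8, 5], [6], [7], [4]]),
   (60, [[0], [2], [8, 5], [6], [7], [4]]),
   (61, [[0], [2], [8], [6], [7], [4]]),
   (62, [[0], [2], [8, 5], [6], [7], [4]]),
   (63, [[0], [2], [8], [6], [7], [4]]),
   (64, [[6, 0], [2], [1], [8], [5], [4]]),
   (65, [[0], [2], [1], [8], [5], [4]]),
   (66, [[0], [1], [6], [5], [7], [8]]),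
   (67, [[0], [2], [3], [8], [7], [4]]),
   (68, [[6, 0], [3], [1], [8], [5], [4]]),
   (69, [[0], [3], [1], [8], [5], [4]]),
   (70, [[0], [1], [6], [5], [7], [8]]),
   (71, [[2], [0], [8], [4], [5], [6]]),
   (72, [[0], [3], [6], [7], [5], [8]]),
   (73, [[0], [2], [1], [8], [5], [4]]),
   (74, [[0], [1], [6], [5], [7], [8]]),
   (76, [[0], [3], [6], [7], [5], [8]]),
   (77, [[1], [0], [6], [4], [7], [8]]),
   (78, [[0], [1], [6], [5], [7], [8]]),
   (79, [[2], [0], [8], [4], [5], [6]]),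
   (80, [[0], [1], [8, 6], [5], [7], [4]]),
   (81, [[0], [1], [8, 6], [5], [7], [4]]),
   (82, [[0], [1], [8, 6], [5], [7], [4]]),
   (83, [[0], [1], [8], [5], [7], [4]]),
   (84, [[0], [1], [8, 6], [5], [7], [4]]),
   (85, [[0], [1], [8, 6], [5], [7], [4]]),
   (86, [[0], [1], [8, 6], [5], [7], [4]]),
   (87, [[0], [1], [8], [5], [7], [4]]),
   (88, [[0], [1], [8, 6], [5], [7], [4]]),
   (89, [[0], [1], [8, 6], [5], [7], [4]]),
   (90, [[0], [1], [8, 6], [5], [7], [4]]),
   (91, [[0], [1], [8], [5], [7], [4]]),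
   (92, [[0], [1], [8, 6], [5], [7], [4]]),
   (93, [[0], [1], [8, 6], [5], [7], [4]]),
   (94, [[0], [1], [8, 6], [5], [7], [4]]),
   (95, [[0], [1], [8], [5], [7], [4]]),
   (96, [[1], [0], [8, 6], [4], [7], [5]]),
   (97, [[0], [1], [3], [8], [7], [4]]),
   (98, [[1], [0], [8, 6], [4], [7], [5]]),
   (99, [[0], [2], [3], [8], [7], [4]]),
   (100, [[1], [0], [8, 6], [4], [7], [5]]),
   (101, [[0], [1], [3], [8], [7], [4]]),
   (102, [[1], [0], [8, 6], [4], [7], [5]]),
   (103, [[1], [0], [8], [4], [7], [5]]),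
   (104, [[1], [0], [8, 6], [4], [7], [5]]),
   (105, [[1], [0], [8, 6], [4], [7], [5]]),
   (106, [[1], [0], [8, 6], [4], [7], [5]]),
   (107, [[1], [0], [8], [4], [7], [5]]),
   (108, [[1], [0], [8, 6], [4], [7], [5]]),
   (109, [[1], [0], [8, 6], [4], [7], [5]]),
   (110, [[1], [0], [8, 6], [4], [7], [5]]),
   (111, [[1], [0], [8], [4], [7], [5]]),
   (128, [[7, 0], [2], [1], [8], [5], [4]]),
   (129, [[0], [2], [1], [8], [5], [4]]),
   (130, [[0], [1], [7], [5], [6], [8]]),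
   (131, [[0], [3], [2], [8], [6], [4]]),
   (132, [[0], [2], [7], [6], [5], [8]]),
   (133, [[0], [3], [1], [8], [5], [4]]),
   (134, [[0], [1], [7], [5], [6], [8]]),
   (136, [[7, 0], [2], [1], [8], [5], [4]]),
   (137, [[0], [2], [1], [8], [5], [4]]),
   (138, [[0], [1], [7], [5], [6], [8]]),
   (139, [[2], [0], [7], [4], [5], [8]]),
   (140, [[0], [2], [7], [6], [5], [8]]),
   (141, [[1], [0], [7], [4], [6], [8]]),
   (142, [[0], [1], [7], [5], [6], [8]]),
   (143, [[3], [0], [8], [4], [5], [7]]),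
   (144, [[0], [1], [8, 7], [5], [6], [4]]),
   (145, [[0], [1], [8, 7], [5], [6], [4]]),
   (146, [[0], [1], [8, 7], [5], [6], [4]]),
   (147, [[0], [1], [8], [5], [6], [4]]),
   (148, [[0], [1], [8, 7], [5], [6], [4]]),
   (149, [[0], [1], [8, 7], [5], [6], [4]]),
   (150, [[0], [1], [8, 7], [5], [6], [4]]),
   (151, [[0], [1], [8], [5], [6], [4]]),
   (152, [[0], [1], [8, 7], [5], [6], [4]]),
   (153, [[0], [1], [8, 7], [5], [6], [4]]),
   (154, [[0], [1], [8, 7], [5], [6], [4]]),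
   (155, [[0], [1], [8], [5], [6], [4]]),
   (156, [[0], [1], [8, 7], [5], [6], [4]]),
   (157, [[0], [1], [8, 7], [5], [6], [4]]),
   (158, [[0], [1], [8, 7], [5], [6], [4]]),
   (159, [[0], [1], [8], [5], [6], [4]]),
   (160, [[1], [0], [8, 7], [4], [6], [5]]),
   (161, [[0], [1], [2], [8], [6], [4]]),
   (162, [[1], [0], [8, 7], [4], [6], [5]]),
   (163, [[0], [3], [2], [8], [6], [4]]),
   (164, [[1], [0], [8, 7], [4], [6], [5]]),
   (165, [[1], [0], [8, 7], [4], [6], [5]]),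
   (166, [[1], [0], [8, 7], [4], [6], [5]]),
   (167, [[1], [0], [8], [4], [6], [5]]),
   (168, [[1], [0], [8, 7], [4], [6], [5]]),
   (169, [[0], [1], [2], [8], [6], [4]]),
   (170, [[1], [0], [8, 7], [4], [6], [5]]),
   (171, [[1], [0], [8], [4], [6], [5]]),
   (172, [[1], [0], [8, 7], [4], [6], [5]]),
   (173, [[1], [0], [8, 7], [4], [6], [5]]),
   (174, [[1], [0], [8, 7], [4], [6], [5]]),
   (175, [[1], [0], [8], [4], [6], [5]]),
   (192, [[2], [0], [8, 7], [4], [5], [6]]),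
   (193, [[0], [2], [1], [8], [5], [4]]),
   (194, [[1], [2], [0], [8], [4], [5]]),
   (195, [[2], [0], [8, 7], [4], [5], [6]]),
   (196, [[2], [0], [8, 7], [4], [5], [6]]),
   (197, [[0], [3], [1], [8], [5], [4]]),
   (198, [[1], [3], [0], [8], [4], [5]]),
   (199, [[2], [0], [8], [4], [5], [6]]),
   (200, [[2], [0], [8, 7], [4], [5], [6]]),
   (201, [[0], [2], [1], [8], [5], [4]]),
   (202, [[1], [2], [0], [8], [4], [5]]),
   (203, [[2], [0], [8, 7], [4], [5], [6]]),
   (204, [[2], [0], [8, 7], [4], [5], [6]]),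
   (205, [[2], [0], [8], [4], [5], [6]]),
   (206, [[2], [0], [8, 7], [4], [5], [6]]),
   (207, [[2], [0], [8], [4], [5], [6]])]

/-- types `P 0`, `P 1`, adjacent -/
def tbPP : List (ℕ × ℕ × List (List ℕ)) :=
  [(14, 269, [[0], [2], [9], [6], [5], [8]]),
   (14, 301, [[0], [2], [9], [6], [7], [8]]),
   (30, 269, [[0], [1], [9, 8], [5], [6], [4]]),
   (30, 301, [[0], [2], [9, 8], [6], [7], [4]])]

/-- types `P 0`, `V 1`, not adjacent -/
def tbPV : List (ℕ × ℕ × List (List ℕ)) :=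
  [(14, 208, [[2], [1], [9, 4], [5], [8], [6]]),
   (14, 209, [[0], [2], [1], [9], [5], [8]]),
   (14, 210, [[1], [2], [0], [9], [8], [5]]),
   (14, 211, [[2], [1], [9, 4], [5], [8], [6]]),
   (14, 212, [[2], [1], [9, 4], [5], [8], [6]]),
   (14, 213, [[0], [3], [1], [9], [5], [8]]),
   (14, 214, [[1], [3], [0], [9], [8], [5]]),
   (14, 215, [[2], [1], [9], [5], [8], [6]]),
   (14, 216, [[2], [1], [9, 4], [5], [8], [6]]),
   (14, 217, [[0], [2], [1], [9], [5], [8]]),
   (14, 218, [[1], [2], [0], [9], [8], [5]]),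
   (14, 219, [[2], [1], [9, 4], [5], [8], [6]]),
   (14, 220, [[2], [1], [9, 4], [5], [8], [6]]),
   (14, 221, [[2], [1], [9, 4], [5], [8], [6]]),
   (14, 222, [[2], [1], [9], [5], [8], [6]]),
   (14, 223, [[2], [1], [9], [5], [8], [6]]),
   (30, 208, [[2], [1], [9, 7], [5], [8], [6]]),
   (30, 209, [[0], [2], [1], [9], [5], [8]]),
   (30, 210, [[1], [2], [0], [9], [8], [5]]),
   (30, 211, [[2], [1], [9, 7], [5], [8], [6]]),
   (30, 212, [[2], [4, 1], [9], [5], [8], [6]]),
   (30, 213, [[0], [3], [1], [9], [5], [8]]),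
   (30, 214, [[1], [3], [0], [9], [8], [5]]),
   (30, 215, [[2], [1], [9], [5], [8], [6]]),
   (30, 216, [[2], [1], [9, 7], [5], [8], [6]]),
   (30, 217, [[0], [2], [1], [9], [5], [8]]),
   (30, 218, [[1], [2], [0], [9], [8], [5]]),
   (30, 219, [[2], [1], [9, 7], [5], [8], [6]]),
   (30, 220, [[2], [4, 1], [9], [5], [8], [6]]),
   (30, 221, [[2], [4, 1], [9], [5], [8], [6]]),
   (30, 222, [[2], [1], [9], [5], [8], [6]]),
   (30, 223, [[2], [1], [9], [5], [8], [6]])]

/-- types `P 0`, `U`, not adjacent -/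
def tbPU : List (ℕ × ℕ × List (List ℕ)) :=
  [(14, 240, [[1], [9, 6], [0], [8], [4], [5]]),
   (14, 241, [[1], [9, 6], [0], [8], [4], [5]]),
   (14, 242, [[1], [9], [6, 0], [8], [4], [5]]),
   (14, 243, [[1], [9], [0], [8], [4], [5]]),
   (14, 244, [[1], [9, 6], [0], [8], [4], [5]]),
   (14, 245, [[1], [9, 6], [0], [8], [4], [5]]),
   (14, 246, [[1], [9], [6, 0], [8], [4], [5]]),
   (14, 247, [[1], [9], [0], [8], [4], [5]]),
   (14, 248, [[1], [9, 6], [0], [8], [4], [5]]),
   (14, 249, [[1], [9, 6], [0], [8], [4], [5]]),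
   (14, 250, [[1], [9], [6, 0], [8], [4], [5]]),
   (14, 251, [[1], [9], [0], [8], [4], [5]]),
   (14, 252, [[1], [9, 6], [0], [8], [4], [5]]),
   (14, 253, [[1], [9, 6], [0], [8], [4], [5]]),
   (14, 254, [[1], [9], [6, 0], [8], [4], [5]]),
   (14, 255, [[1], [9], [0], [8], [4], [5]]),
   (30, 240, [[9], [7, 1], [4], [5], [6], [8]]),
   (30, 241, [[9], [7, 1], [4], [5], [6], [8]]),
   (30, 242, [[9], [1], [4], [5], [6], [8]]),
   (30, 243, [[9], [1], [4], [5], [6], [8]]),
   (30, 244, [[9], [7, 1], [4], [5], [6], [8]]),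
   (30, 245, [[9], [7, 1], [4], [5], [6], [8]]),
   (30, 246, [[9], [1], [4], [5], [6], [8]]),
   (30, 247, [[9], [1], [4], [5], [6], [8]]),
   (30, 248, [[9], [7, 1], [4], [5], [6], [8]]),
   (30, 249, [[9], [7, 1], [4], [5], [6], [8]]),
   (30, 250, [[9], [1], [4], [5], [6], [8]]),
   (30, 251, [[9], [1], [4], [5], [6], [8]]),
   (30, 252, [[9], [7, 1], [4], [5], [6], [8]]),
   (30, 253, [[9], [7, 1], [4], [5], [6], [8]]),
   (30, 254, [[9], [1], [4], [5], [6], [8]]),
   (30, 255, [[9], [1], [4], [5], [6], [8]])]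

/-- types `P 0`, `A`, adjacent -/
def tbPA : List (ℕ × ℕ × List (List ℕ)) :=
  [(14, 271, [[0], [1], [9], [5], [6], [8]]),
   (30, 271, [[0], [1], [9, 8], [5], [6], [4]])]

/-- types `P 0`, `E`, adjacent -/
def tbPE : List (ℕ × ℕ × List (List ℕ)) :=
  [(14, 256, [[8, 1], [2], [0], [9], [4], [5]]),
   (30, 256, [[8, 1], [2], [0], [9], [4], [5]])]

/-- types `V 0`, `A`, not adjacent -/
def tbVA : List (ℕ × ℕ × List (List ℕ)) :=
  [(224, 15, [[1], [0], [8, 6], [4], [9], [5]]),
   (225, 15, [[1], [0], [8, 6], [4], [9], [5]]),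
   (226, 15, [[1], [0], [8, 6], [4], [9], [5]]),
   (227, 15, [[1], [0], [8], [4], [9], [5]]),
   (228, 15, [[1], [0], [8, 6], [4], [9], [5]]),
   (229, 15, [[1], [0], [8, 6], [4], [9], [5]]),
   (230, 15, [[1], [0], [8, 6], [4], [9], [5]]),
   (231, 15, [[1], [0], [8], [4], [9], [5]]),
   (232, 15, [[1], [0], [8, 6], [4], [9], [5]]),
   (233, 15, [[1], [0], [8, 6], [4], [9], [5]]),
   (234, 15, [[1], [0], [8, 6], [4], [9], [5]]),
   (235, 15, [[1], [0], [8], [4], [9], [5]]),
   (236, 15, [[1], [0], [8, 6], [4], [9], [5]]),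
   (237, 15, [[1], [0], [8, 6], [4], [9], [5]]),
   (238, 15, [[1], [0], [8, 6], [4], [9], [5]]),
   (239, 15, [[1], [0], [8], [4], [9], [5]])]

/-- types `V 0`, `E`, adjacent -/
def tbVE : List (ℕ × ℕ × List (List ℕ)) :=
  [(224, 256, [[8], [5, 0], [6], [9], [7], [3]]),
   (225, 256, [[8], [0], [6], [9], [5], [1]]),
   (226, 256, [[8], [1, 0], [5], [9], [6], [2]]),
   (227, 256, [[8], [0], [5], [9], [6], [2]]),
   (228, 256, [[8], [2, 0], [6], [9], [5], [1]]),
   (229, 256, [[8], [0], [6], [9], [5], [1]]),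
   (230, 256, [[8], [2], [5], [9], [7], [3]]),
   (231, 256, [[8], [0], [5], [9], [7], [3]]),
   (232, 256, [[8], [3], [6], [9], [5], [1]]),
   (233, 256, [[8], [0], [6], [9], [5], [1]]),
   (234, 256, [[8], [3], [5], [9], [6], [2]]),
   (235, 256, [[8], [0], [5], [9], [6], [2]]),
   (236, 256, [[8], [3], [6], [9], [5], [1]]),
   (237, 256, [[8], [0], [6], [9], [5], [1]]),
   (238, 256, [[8], [2], [1], [9], [5], [4]]),
   (239, 256, [[8], [2], [1], [9], [5], [4]])]


theorem tb1_ok : (tb1.all fun e => chkG 9 6 (rc (sp4 ++ [e.1])) r3 e.2) = true := by decide +kernel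

theorem tb1_cov : ((List.range 256).all fun t => ok1 t || tb1.any fun e => e.1 == t) = true := by
  decide +kernel

/-- all pair tables -/
def tb2 : List (ℕ × ℕ × List (List ℕ)) := tbPP ++ tbPV ++ tbPU ++ tbPA ++ tbPE ++ tbVA ++ tbVE

theorem tb2_ok : (tb2.all fun e => chkG 10 6 (rc (sp4 ++ [e.1] ++ [e.2.1])) r3 e.2.2) = true := by
  decide +kernel

/-! ### types as codes -/

def cP (i t : ℕ) : Bool := (List.range 4).all fun j => (t.testBit j == !(Nat.beq j i)) &&
  (Nat.beq j i || !t.testBit (4 + j))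

def cV (i t : ℕ) : Bool := (List.range 4).all fun j => t.testBit (4 + j) == !(Nat.beq j i)

def cU (t : ℕ) : Bool := (List.range 4).all fun j => t.testBit (4 + j)

def cA (t : ℕ) : Bool := (List.range 4).all fun j => t.testBit j && !t.testBit (4 + j)

def cE (t : ℕ) : Bool := (List.range 4).all fun j => !t.testBit j && !t.testBit (4 + j)

/-- the pairs of traces of the types `a`, `b` with adjacency `c` are in the table -/
def cov (a b : ℕ → Bool) (c : Bool) : Bool :=
  ((List.range 256).filter a).all fun t => ((List.range 512).filter fun t' => b t' && (t'.testBit 8 == c)).all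
    fun t' => tb2.any fun e => Nat.beq e.1 t && Nat.beq e.2.1 t'

theorem covPP : cov (cP 0) (cP 1) true = true := by decide +kernel
theorem covPV : cov (cP 0) (cV 1) false = true := by decide +kernel
theorem covPU : cov (cP 0) cU false = true := by decide +kernel
theorem covPA : cov (cP 0) cA true = true := by decide +kernel
theorem covPE : cov (cP 0) cE true = true := by decide +kernel
theorem covVA : cov (cV 0) cA false = true := by decide +kernel
theorem covVE : cov (cV 0) cE true = true := by decide +kernel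

/-! ### the spider as a pattern -/

/-- the vertices of the spider with four legs -/
def f4 (k s : ℕ → V) (i : ℕ) : V := if i < 4 then k i else s (i - 4)

theorem f4k {k s : ℕ → V} {i : ℕ} (hi : i < 4) : f4 k s i = k i := if_pos hi

theorem f4s {k s : ℕ → V} (i : ℕ) : f4 k s (4 + i) = s i := by
  unfold f4
  rw [if_neg (by omega)]
  congr 1
  omega

theorem codeK : ∀ i < 4, ∀ j < i, rc sp4 i j = true := by decide

theorem codeS : ∀ i < 4, ∀ j < 4, (rc sp4 (4 + i) j = true ↔ j ≠ i) := by decide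

theorem codeSS : ∀ i < 4, ∀ j < i, rc sp4 (4 + i) (4 + j) = false := by decide

theorem f4_ne {G : SimpleGraph V} {k s : ℕ → V} (h : TSp G 4 k s) :
    ∀ i < 8, ∀ j < i, f4 k s i ≠ f4 k s j := by
  intro i hi j hj
  by_cases h1 : i < 4
  · rw [f4k h1, f4k (by omega)]
    exact (h.kk i h1 j (by omega) (by omega)).ne
  · obtain ⟨i, rfl⟩ : ∃ i', i = 4 + i' := ⟨i - 4, by omega⟩
    rw [f4s]
    by_cases h2 : j < 4
    · rw [f4k h2]
      intro h3
      have h4 : ∃ l < 4, l ≠ i ∧ l ≠ j := by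
        have : ∀ i < 4, ∀ j < 4, ∃ l < 4, l ≠ i ∧ l ≠ j := by decide
        exact this i (by omega) j h2
      obtain ⟨l, hl, hli, hlj⟩ := h4
      have h5 := (h.ks j h2 l hl).2 hlj.symm
      rw [← h3] at h5
      exact h.ss i (by omega) l hl h5
    · obtain ⟨j, rfl⟩ : ∃ j', j = 4 + j' := ⟨j - 4, by omega⟩
      rw [f4s]
      intro h3
      have h5 := (h.ks i (by omega) j (by omega)).2 (by omega)
      rw [← h3] at h5
      exact (h.ks i (by omega) i (by omega)).1 h5 rfl

theorem f4_adj {G : SimpleGraph V} {k s : ℕ → V} (h : TSp G 4 k s) :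
    ∀ i < 8, ∀ j < i, (G.Adj (f4 k s i) (f4 k s j) ↔ rc sp4 i j = true) := by
  intro i hi j hj
  by_cases h1 : i < 4
  · rw [f4k h1, f4k (by omega)]
    exact iff_of_true (h.kk i h1 j (by omega) (by omega)) (codeK i h1 j hj)
  · obtain ⟨i, rfl⟩ : ∃ i', i = 4 + i' := ⟨i - 4, by omega⟩
    rw [f4s]
    by_cases h2 : j < 4
    · rw [f4k h2, codeS i (by omega) j h2, SimpleGraph.adj_comm, h.ks j h2 i (by omega)]
    · obtain ⟨j, rfl⟩ : ∃ j', j = 4 + j' := ⟨j - 4, by omega⟩
      rw [f4s, codeSS i (by omega) j (by omega)]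
      exact iff_of_false (h.ss i (by omega) j (by omega)) (by simp)

theorem sp4_sp {G : SimpleGraph V} {k s : ℕ → V} (h : TSp G 4 k s) :
    SP G Set.univ 8 (fun i => {f4 k s i}) (rc sp4) := by
  refine ⟨fun i _ => Set.subset_univ _, fun i _ => Conn.singleton G _, fun i hi j hj => ?_,
    fun i hi j hj => ?_⟩
  · exact Set.disjoint_singleton.2 (f4_ne h i hi j hj)
  · rw [tch_single]
    exact f4_adj h i hi j hj

theorem nf4 {k s : ℕ → V} {u : V} (hk : ∀ i < 4, u ≠ k i) (hs : ∀ i < 4, u ≠ s i) :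
    ∀ j < 8, u ∉ ({f4 k s j} : Set V) := by
  intro j hj h
  rw [Set.mem_singleton_iff] at h
  by_cases h1 : j < 4
  · rw [f4k h1] at h
    exact hk j h1 h
  · obtain ⟨j, rfl⟩ : ∃ j', j = 4 + j' := ⟨j - 4, by omega⟩
    rw [f4s] at h
    exact hs j (by omega) h

theorem bt_of {G : SimpleGraph V} {k s : ℕ → V} {u : V} {t : ℕ}
    (h : ∀ j < 8, (Tch G {u} {f4 k s j} ↔ t.testBit j = true)) : Bt G k s u t := by
  refine ⟨fun j hj => ?_, fun j hj => ?_⟩
  · have h1 := h j (by omega)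
    rwa [tch_single, f4k hj] at h1
  · have h1 := h (4 + j) (by omega)
    rwa [tch_single, f4s] at h1

/-- **Tab1.** -/
theorem hTab1 : S_Tab1 := by
  intro V G k s hH h u hk hs
  have hF : SPF G Set.univ 6 r3 := d17.2.2.1 V G Set.univ hH
  obtain ⟨t, ht, htr, hsp⟩ := snocV (sp4_sp h) rfl (Set.mem_univ u) (nf4 hk hs)
  refine ⟨t, ht, bt_of htr, ?_⟩
  have h1 := List.all_eq_true.1 tb1_cov t (List.mem_range.2 ht)
  rw [Bool.or_eq_true] at h1
  rcases h1 with h1 | h1
  · exact h1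
  · exfalso
    obtain ⟨e, he, het⟩ := List.any_eq_true.1 h1
    have h2 : e.1 = t := by simpa using het
    have h3 := List.all_eq_true.1 tb1_ok e he
    rw [h2] at h3
    exact hF _ (chkG_sp hsp h3)

theorem cP_of {G : SimpleGraph V} {k s : ℕ → V} {u : V} {t i : ℕ} (h : Bt G k s u t)
    (hu : u ∈ PT G 4 k s i) : cP i t = true := by
  unfold cP
  rw [List.all_eq_true]
  intro j hj
  have hj' : j < 4 := List.mem_range.1 hj
  have h1 := (h.1 j hj').symm.trans (hu.1 j hj')
  have h2 := h.2 j hj'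
  by_cases hji : j = i
  · subst hji
    have h3 : t.testBit j = false := by
      rw [Bool.eq_false_iff]
      intro h4
      exact h1.1 h4 rfl
    have h5 : Nat.beq j j = true := by simp
    rw [h3, h5]
    rfl
  · have h3 : t.testBit j = true := h1.2 hji
    have h4 : t.testBit (4 + j) = false := by
      rw [Bool.eq_false_iff]
      intro h5
      exact hu.2 j hj' hji (h2.2 h5)
    have h5 : Nat.beq j i = false := by
      rw [Bool.eq_false_iff]
      intro h6
      exact hji (Nat.eq_of_beq_eq_true h6)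
    rw [h3, h4, h5]
    rfl

theorem cV_of {G : SimpleGraph V} {k s : ℕ → V} {u : V} {t i : ℕ} (h : Bt G k s u t)
    (hu : u ∈ VT G 4 s i) : cV i t = true := by
  unfold cV
  rw [List.all_eq_true]
  intro j hj
  have hj' : j < 4 := List.mem_range.1 hj
  have h1 := (h.2 j hj').symm.trans (hu j hj')
  by_cases hji : j = i
  · subst hji
    have h3 : t.testBit (4 + j) = false := by
      rw [Bool.eq_false_iff]
      intro h4
      exact h1.1 h4 rfl
    have h5 : Nat.beq j j = true := by simp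
    rw [h3, h5]
    rfl
  · have h3 : t.testBit (4 + j) = true := h1.2 hji
    have h5 : Nat.beq j i = false := by
      rw [Bool.eq_false_iff]
      intro h6
      exact hji (Nat.eq_of_beq_eq_true h6)
    rw [h3, h5]
    rfl

theorem cU_of {G : SimpleGraph V} {k s : ℕ → V} {u : V} {t : ℕ} (h : Bt G k s u t)
    (hu : u ∈ UT G 4 s) : cU t = true := by
  unfold cU
  rw [List.all_eq_true]
  intro j hj
  have hj' : j < 4 := List.mem_range.1 hj
  exact (h.2 j hj').1 (hu j hj')

theorem cA_of {G : SimpleGraph V} {k s : ℕ → V} {u : V} {t : ℕ} (h : Bt G k s u t)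
    (hu : u ∈ AT G 4 k s) : cA t = true := by
  unfold cA
  rw [List.all_eq_true]
  intro j hj
  have hj' : j < 4 := List.mem_range.1 hj
  have h3 : t.testBit j = true := (h.1 j hj').1 (hu.1 j hj')
  have h4 : t.testBit (4 + j) = false := by
    rw [Bool.eq_false_iff]
    intro h5
    exact hu.2 j hj' ((h.2 j hj').2 h5)
  rw [h3, h4]
  rfl

theorem cE_of {G : SimpleGraph V} {k s : ℕ → V} {u : V} {t : ℕ} (h : Bt G k s u t)
    (hu : u ∈ ET G 4 k s) : cE t = true := by
  unfold cE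
  rw [List.all_eq_true]
  intro j hj
  have hj' : j < 4 := List.mem_range.1 hj
  have h3 : t.testBit j = false := by
    rw [Bool.eq_false_iff]
    intro h5
    exact hu.1 j hj' ((h.1 j hj').2 h5)
  have h4 : t.testBit (4 + j) = false := by
    rw [Bool.eq_false_iff]
    intro h5
    exact hu.2 j hj' ((h.2 j hj').2 h5)
  rw [h3, h4]
  rfl

/-- **Tab2.** -/
theorem hTab2 : S_Tab2 := by
  intro V G k s hH h u w hku hsu hkw hsw huw
  have hF : SPF G Set.univ 6 r3 := d17.2.2.1 V G Set.univ hH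
  obtain ⟨t, ht, htr, hsp⟩ := snocV (sp4_sp h) rfl (Set.mem_univ u) (nf4 hku hsu)
  obtain ⟨t', ht', htr', hsp'⟩ := snocV (z := w) hsp (by simp [sp4]) (Set.mem_univ w) (by
    intro j hj
    by_cases h1 : j < 8
    · simp only [h1, if_true]
      exact nf4 hkw hsw j h1
    · simp only [h1, if_false]
      exact fun h2 => huw (Set.mem_singleton_iff.1 h2).symm)
  have hb : Bt G k s u t := bt_of htr
  have hb' : Bt G k s w t' := bt_of (fun j hj => by
    have h1 := htr' j (by omega)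
    simpa only [hj, if_true] using h1)
  have h8 : G.Adj u w ↔ t'.testBit 8 = true := by
    have h1 := htr' 8 (by omega)
    simp only [lt_irrefl, if_false] at h1
    rw [tch_single] at h1
    rw [SimpleGraph.adj_comm]
    exact h1
  have key : ∀ (a b : ℕ → Bool) (c : Bool), cov a b c = true → a t = true → b t' = true →
      t'.testBit 8 = c → False := by
    intro a b c hc ha hb hc'
    unfold cov at hc
    have h1 := List.all_eq_true.1 hc t (List.mem_filter.2 ⟨List.mem_range.2 ht, ha⟩)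
    have h2 := List.all_eq_true.1 h1 t' (List.mem_filter.2 ⟨List.mem_range.2 ht', by
      rw [hb, hc']; simp⟩)
    obtain ⟨e, he, het⟩ := List.any_eq_true.1 h2
    rw [Bool.and_eq_true] at het
    have e1 : e.1 = t := Nat.eq_of_beq_eq_true het.1
    have e2 : e.2.1 = t' := Nat.eq_of_beq_eq_true het.2
    have h3 := List.all_eq_true.1 tb2_ok e he
    rw [e1, e2] at h3
    exact hF _ (chkG_sp hsp' h3)
  have k1 : ∀ (a b : ℕ → Bool), cov a b true = true → a t = true → b t' = true → ¬ G.Adj u w :=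
    fun a b hc ha hb' hA => key a b true hc ha hb' (h8.1 hA)
  have k0 : ∀ (a b : ℕ → Bool), cov a b false = true → a t = true → b t' = true → G.Adj u w := by
    intro a b hc ha hb'
    by_contra hA
    refine key a b false hc ha hb' ?_
    rw [Bool.eq_false_iff]
    exact fun h1 => hA (h8.2 h1)
  exact ⟨fun hu hw => k1 _ _ covPP (cP_of hb hu) (cP_of hb' hw),
    fun hu hw => k0 _ _ covPV (cP_of hb hu) (cV_of hb' hw),
    fun hu hw => k0 _ _ covPU (cP_of hb hu) (cU_of hb' hw),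
    fun hu hw => k1 _ _ covPA (cP_of hb hu) (cA_of hb' hw),
    fun hu hw => k1 _ _ covPE (cP_of hb hu) (cE_of hb' hw),
    fun hu hw => k0 _ _ covVA (cV_of hb hu) (cA_of hb' hw),
    fun hu hw => k1 _ _ covVE (cV_of hb hu) (cE_of hb' hw)⟩

end Pool.Agent.MPd439b2.H3S
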